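import Mathlib
import Pool.Agent.W755.HaightA

set_option autoImplicit false

/-!
# Partial sums of an L-series and of equivalent Dirichlet polynomials

If the partial sum of the Dirichlet series with completely multiplicative coefficients `cm v`
(`v p` unimodular for `p` prime to `k`, zero for `p ∣ k`) vanishes at a real point to the right of
`1`, so does (somewhere in the half-plane) the partial sum of `L(s, χ)` for every character `χ`
modulo `k`.
-/

namespace Pool.Agent.P8H19.TP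

open Finset Filter Topology

/-- the completely multiplicative function with the values `v p` at the primes -/
noncomputable def cm (v : ℕ → ℂ) (n : ℕ) : ℂ := (n.primeFactorsList.map v).prod

lemma cm_one (v : ℕ → ℂ) : cm v 1 = 1 := by simp [cm]

lemma cm_prime (v : ℕ → ℂ) {p : ℕ} (hp : p.Prime) : cm v p = v p := by
  simp [cm, Nat.primeFactorsList_prime hp]

lemma cm_mul (v : ℕ → ℂ) {a b : ℕ} (ha : a ≠ 0) (hb : b ≠ 0) :
    cm v (a * b) = cm v a * cm v b := by
  unfold cm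
  rw [((Nat.perm_primeFactorsList_mul ha hb).map v).prod_eq, List.map_append, List.prod_append]

lemma cm_congr {v v' : ℕ → ℂ} {n : ℕ} (h : ∀ p, p.Prime → p ∣ n → v p = v' p) :
    cm v n = cm v' n := by
  unfold cm
  congr 1
  apply List.map_congr_left
  intro p hp
  exact h p (Nat.prime_of_mem_primeFactorsList hp) (Nat.dvd_of_mem_primeFactorsList hp)

lemma norm_cm_le_one {v : ℕ → ℂ} (hv : ∀ p, p.Prime → ‖v p‖ ≤ 1) (n : ℕ) : ‖cm v n‖ ≤ 1 := by
  unfold cm
  have hl : ∀ p ∈ n.primeFactorsList, ‖v p‖ ≤ 1 := fun p hp =>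
    hv p (Nat.prime_of_mem_primeFactorsList hp)
  generalize n.primeFactorsList = l at hl
  induction l with
  | nil => simp
  | cons a l ih =>
    rw [List.map_cons, List.prod_cons, norm_mul]
    have h1 := hl a (by simp)
    have h2 := ih (fun p hp => hl p (by simp [hp]))
    calc ‖v a‖ * ‖(List.map v l).prod‖ ≤ 1 * 1 := by gcongr
      _ = 1 := one_mul 1

lemma cm_eq_zero {v : ℕ → ℂ} {p n : ℕ} (hp : p.Prime) (hpn : p ∣ n) (hn : n ≠ 0) (h : v p = 0) :
    cm v n = 0 := by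
  unfold cm
  apply List.prod_eq_zero
  rw [List.mem_map]
  exact ⟨p, (Nat.mem_primeFactorsList hn).2 ⟨hp, hpn⟩, h⟩

variable {k : ℕ}

/-- a twisted character value -/
noncomputable def tw (χ : DirichletCharacter ℂ k) (τ : ℝ) (n : ℕ) : ℂ :=
  χ (n : ZMod k) * (n : ℂ) ^ (-((τ : ℂ) * Complex.I))

lemma tw_mul (χ : DirichletCharacter ℂ k) (τ : ℝ) (a b : ℕ) :
    tw χ τ (a * b) = tw χ τ a * tw χ τ b := by
  unfold tw
  push_cast
  rw [map_mul, Complex.natCast_mul_natCast_cpow]
  ring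

lemma norm_tw_le_one (χ : DirichletCharacter ℂ k) (τ : ℝ) {n : ℕ} (hn : n ≠ 0) :
    ‖tw χ τ n‖ ≤ 1 := by
  unfold tw
  rw [norm_mul, Complex.norm_natCast_cpow_of_pos (Nat.pos_of_ne_zero hn)]
  simp only [Complex.neg_re, Complex.mul_re, Complex.ofReal_re, Complex.I_re, mul_zero,
    Complex.ofReal_im, Complex.I_im, mul_one, sub_self, neg_zero, Real.rpow_zero]
  exact χ.norm_le_one _

lemma tw_one (χ : DirichletCharacter ℂ k) (τ : ℝ) : tw χ τ 1 = 1 := by
  simp [tw]

lemma tw_close (χ : DirichletCharacter ℂ k) (τ : ℝ) (v : ℕ → ℂ)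
    (hv : ∀ p, p.Prime → ‖v p‖ ≤ 1) (ε : ℝ) (hε : 0 ≤ ε) (N : ℕ)
    (h : ∀ p, p.Prime → p ≤ N → ‖tw χ τ p - v p‖ ≤ ε) :
    ∀ n : ℕ, n ≠ 0 → n ≤ N → ‖tw χ τ n - cm v n‖ ≤ n * ε := by
  intro n
  induction n using Nat.strong_induction_on with
  | _ n ih =>
    intro hn hnN
    by_cases h1 : n = 1
    · subst h1
      rw [tw_one, cm_one]
      simpa using hε
    · obtain ⟨m, hm⟩ := n.minFac_dvd
      have hp := Nat.minFac_prime h1
      set p := n.minFac with hpdef
      have hm0 : m ≠ 0 := by rintro rfl; simp at hm; exact hn hm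
      have hmn : m < n := by
        rw [hm]
        have := hp.two_le
        nlinarith [Nat.pos_of_ne_zero hm0]
      have h2 := ih m hmn hm0 (by omega)
      have hpn : p ≤ N := (Nat.le_of_dvd (Nat.pos_of_ne_zero hn) (n.minFac_dvd)).trans hnN
      have h3 := h p hp hpn
      rw [hm, tw_mul, cm_mul v hp.ne_zero hm0, cm_prime v hp]
      have h4 : tw χ τ p * tw χ τ m - v p * cm v m =
          (tw χ τ p - v p) * tw χ τ m + v p * (tw χ τ m - cm v m) := by ring
      rw [h4]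
      calc ‖(tw χ τ p - v p) * tw χ τ m + v p * (tw χ τ m - cm v m)‖
          ≤ ‖(tw χ τ p - v p) * tw χ τ m‖ + ‖v p * (tw χ τ m - cm v m)‖ := norm_add_le _ _
        _ ≤ ε * 1 + 1 * (m * ε) := by
            rw [norm_mul, norm_mul]
            gcongr
            · exact norm_tw_le_one χ τ hm0
            · exact hv p hp
        _ = (m + 1) * ε := by ring
        _ ≤ ((p * m : ℕ) : ℝ) * ε := by
            gcongr
            have : m + 1 ≤ p * m := by rw [← hm]; omega
            exact_mod_cast this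

/-- Kronecker's theorem: the values of `χ(n) n^(-iτ)` approximate any unimodular completely
multiplicative function on the integers prime to `k`. -/
lemma exists_twist (χ : DirichletCharacter ℂ k) (v : ℕ → ℂ)
    (hv0 : ∀ p, p.Prime → p ∣ k → v p = 0) (hv1 : ∀ p, p.Prime → ¬ p ∣ k → ‖v p‖ = 1)
    (N : ℕ) (ε : ℝ) (hε : 0 < ε) :
    ∃ τ : ℝ, ∀ p, p.Prime → p ≤ N → ‖tw χ τ p - v p‖ ≤ ε := by
  have hφ : ∀ p : ℕ, ∃ φ : ℝ, p.Prime → ¬ p ∣ k →
      v p = χ (p : ZMod k) * Complex.exp (φ * Complex.I) := by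
    intro p
    by_cases hp : p.Prime ∧ ¬ p ∣ k
    · have hu : IsUnit (p : ZMod k) := by
        rw [ZMod.isUnit_iff_coprime]
        exact (Nat.Prime.coprime_iff_not_dvd hp.1).2 hp.2
      have hχ : ‖χ (p : ZMod k)‖ = 1 := by
        obtain ⟨u, hu⟩ := hu
        rw [← hu]
        exact DirichletCharacter.unit_norm_eq_one χ u
      have hχ0 : χ (p : ZMod k) ≠ 0 := by rw [← norm_pos_iff, hχ]; exact one_pos
      have hw : ‖v p / χ (p : ZMod k)‖ = 1 := by rw [norm_div, hχ, hv1 p hp.1 hp.2, div_one]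
      obtain ⟨φ, hφ⟩ := (Complex.norm_eq_one_iff _).1 hw
      refine ⟨φ, fun _ _ => ?_⟩
      rw [hφ]
      field_simp
    · refine ⟨0, fun h1 h2 => absurd ⟨h1, h2⟩ hp⟩
  choose φ hφ using hφ
  obtain ⟨t, _, ht⟩ := Pool.Agent.W755.Haight.phases (N + 1) (fun p => -φ p / (2 * Real.pi))
    (ε / (2 * Real.pi)) (by positivity) 0
  refine ⟨2 * Real.pi * t, fun p hp hpN => ?_⟩
  by_cases hpk : p ∣ k
  · rw [hv0 p hp hpk]
    have : χ (p : ZMod k) = 0 := by
      apply χ.map_nonunit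
      rw [ZMod.isUnit_iff_coprime]
      intro h
      exact (Nat.Prime.coprime_iff_not_dvd hp).1 h hpk
    simp [tw, this, hε.le]
  · obtain ⟨n, hn⟩ := ht p hp (by omega)
    set η : ℝ := t * Real.log p - (-φ p / (2 * Real.pi)) - n with hη
    have hlog : t * Real.log p = -φ p / (2 * Real.pi) + n + η := by rw [hη]; ring
    have hp0 : (p : ℂ) ≠ 0 := by exact_mod_cast hp.ne_zero
    have h1 : (p : ℂ) ^ (-(((2 * Real.pi * t : ℝ) : ℂ) * Complex.I)) =
        Complex.exp (φ p * Complex.I) * Complex.exp (Complex.I * ((-(2 * Real.pi * η) : ℝ) : ℂ)) := by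
      rw [Complex.cpow_def_of_ne_zero hp0, ← Complex.exp_add]
      have h2 : Complex.log (p : ℂ) = ((Real.log p : ℝ) : ℂ) := by
        rw [Complex.ofReal_log (Nat.cast_nonneg p), Complex.ofReal_natCast]
      rw [h2]
      have h3 : ((Real.log p : ℝ) : ℂ) * -(((2 * Real.pi * t : ℝ) : ℂ) * Complex.I) =
          -((2 * Real.pi * (t * Real.log p) : ℝ) : ℂ) * Complex.I := by push_cast; ring
      rw [h3, hlog]
      have h4 : -((2 * Real.pi * (-φ p / (2 * Real.pi) + n + η) : ℝ) : ℂ) * Complex.I =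
          (φ p * Complex.I + Complex.I * ((-(2 * Real.pi * η) : ℝ) : ℂ)) -
            n * (2 * Real.pi * Complex.I) := by
        have hpi : (Real.pi : ℂ) ≠ 0 := by exact_mod_cast Real.pi_ne_zero
        push_cast
        field_simp
        ring
      rw [h4, Complex.exp_periodic.sub_int_mul_eq n]
    have h5 : tw χ (2 * Real.pi * t) p - v p = v p *
        (Complex.exp (Complex.I * ((-(2 * Real.pi * η) : ℝ) : ℂ)) - 1) := by
      unfold tw
      rw [h1, hφ p hp hpk]
      ring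
    rw [h5, norm_mul, hv1 p hp hpk, one_mul]
    refine (Real.norm_exp_I_mul_ofReal_sub_one_le).trans ?_
    rw [Real.norm_eq_abs, abs_neg, abs_mul, abs_of_pos (by positivity : 0 < 2 * Real.pi)]
    have := hn.le
    rw [le_div_iff₀ (by positivity)] at this
    linarith

/-- the partial sums of the L-series -/
noncomputable def PS (χ : DirichletCharacter ℂ k) (N : ℕ) (s : ℂ) : ℂ :=
  ∑ n ∈ Icc 1 N, χ (n : ZMod k) * (n : ℂ) ^ (-s)

/-- the partial sums of the equivalent series -/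
noncomputable def PC (v : ℕ → ℂ) (N : ℕ) (s : ℂ) : ℂ :=
  ∑ n ∈ Icc 1 N, cm v n * (n : ℂ) ^ (-s)

lemma differentiable_term (c : ℂ) {n : ℕ} (hn : n ≠ 0) :
    Differentiable ℂ fun s : ℂ => c * (n : ℂ) ^ (-s) := by
  apply Differentiable.const_mul
  intro s
  exact (differentiableAt_id.neg).const_cpow (Or.inl (by exact_mod_cast hn))

lemma PC_differentiable (v : ℕ → ℂ) (N : ℕ) : Differentiable ℂ (PC v N) := by
  unfold PC
  apply Differentiable.fun_sum
  intro n hn
  exact differentiable_term _ (by have := (mem_Icc.1 hn).1; omega)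

lemma PS_differentiable (χ : DirichletCharacter ℂ k) (N : ℕ) : Differentiable ℂ (PS χ N) := by
  unfold PS
  apply Differentiable.fun_sum
  intro n hn
  exact differentiable_term _ (by have := (mem_Icc.1 hn).1; omega)

lemma norm_cpow_neg_le_one {n : ℕ} (hn : n ≠ 0) {s : ℂ} (hs : 0 ≤ s.re) :
    ‖(n : ℂ) ^ (-s)‖ ≤ 1 := by
  rw [Complex.norm_natCast_cpow_of_pos (Nat.pos_of_ne_zero hn)]
  apply Real.rpow_le_one_of_one_le_of_nonpos
  · exact_mod_cast Nat.one_le_iff_ne_zero.2 hn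
  · simpa using hs

lemma PS_shift (χ : DirichletCharacter ℂ k) (N : ℕ) (τ : ℝ) (s : ℂ) :
    PS χ N (s + (τ : ℂ) * Complex.I) = ∑ n ∈ Icc 1 N, tw χ τ n * (n : ℂ) ^ (-s) := by
  unfold PS tw
  apply Finset.sum_congr rfl
  intro n hn
  have hn0 : (n : ℂ) ≠ 0 := by
    have := (mem_Icc.1 hn).1
    exact_mod_cast (by omega : n ≠ 0)
  rw [neg_add, Complex.cpow_add _ _ hn0]
  ring

lemma PS_close (χ : DirichletCharacter ℂ k) (v : ℕ → ℂ)
    (hv0 : ∀ p, p.Prime → p ∣ k → v p = 0) (hv1 : ∀ p, p.Prime → ¬ p ∣ k → ‖v p‖ = 1)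
    (N : ℕ) (ε : ℝ) (hε : 0 < ε) :
    ∃ τ : ℝ, ∀ s : ℂ, 0 ≤ s.re → ‖PS χ N (s + (τ : ℂ) * Complex.I) - PC v N s‖ ≤ ε := by
  have hv : ∀ p, p.Prime → ‖v p‖ ≤ 1 := by
    intro p hp
    by_cases h : p ∣ k
    · rw [hv0 p hp h]; simp
    · exact (hv1 p hp h).le
  have hN : (0 : ℝ) < (N : ℝ) * N + 1 := by positivity
  obtain ⟨τ, hτ⟩ := exists_twist χ v hv0 hv1 N (ε / ((N : ℝ) * N + 1)) (by positivity)
  refine ⟨τ, fun s hs => ?_⟩
  rw [PS_shift, PC, ← Finset.sum_sub_distrib]
  calc ‖∑ n ∈ Icc 1 N, (tw χ τ n * (n : ℂ) ^ (-s) - cm v n * (n : ℂ) ^ (-s))‖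
      ≤ ∑ n ∈ Icc 1 N, ‖tw χ τ n * (n : ℂ) ^ (-s) - cm v n * (n : ℂ) ^ (-s)‖ := norm_sum_le _ _
    _ ≤ ∑ n ∈ Icc 1 N, (N : ℝ) * (ε / ((N : ℝ) * N + 1)) := by
        apply Finset.sum_le_sum
        intro n hn
        have hn' := mem_Icc.1 hn
        rw [← sub_mul, norm_mul]
        have h1 := tw_close χ τ v hv _ (by positivity) N hτ n (by omega) hn'.2
        have h2 := norm_cpow_neg_le_one (n := n) (by omega) hs
        calc ‖tw χ τ n - cm v n‖ * ‖(n : ℂ) ^ (-s)‖
            ≤ (n * (ε / ((N : ℝ) * N + 1))) * 1 := by gcongr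
          _ ≤ (N : ℝ) * (ε / ((N : ℝ) * N + 1)) := by
              rw [mul_one]
              gcongr
              exact_mod_cast hn'.2
    _ = (N : ℝ) * N * ε / ((N : ℝ) * N + 1) := by
        rw [Finset.sum_const, Nat.card_Icc]
        simp
        ring
    _ ≤ ε := by
        rw [div_le_iff₀ hN]
        nlinarith

lemma PC_tendsto (v : ℕ → ℂ) (N : ℕ) (hN : 1 ≤ N) :
    Tendsto (fun x : ℝ => PC v N (x : ℂ)) atTop (𝓝 1) := by
  unfold PC
  have h : Tendsto (fun x : ℝ => ∑ n ∈ Icc 1 N, cm v n * (n : ℂ) ^ (-(x : ℂ))) atTop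
      (𝓝 (∑ n ∈ Icc 1 N, if n = 1 then 1 else 0)) := by
    apply tendsto_finsetSum
    intro n hn
    by_cases h1 : n = 1
    · subst h1
      simp [cm_one]
    · rw [if_neg h1]
      have hn2 : 2 ≤ n := by have := (mem_Icc.1 hn).1; omega
      rw [show (0 : ℂ) = cm v n * 0 by simp]
      apply Tendsto.const_mul
      rw [tendsto_zero_iff_norm_tendsto_zero]
      have : ∀ x : ℝ, ‖(n : ℂ) ^ (-(x : ℂ))‖ = ((n : ℝ)⁻¹) ^ x := by
        intro x
        rw [Complex.norm_natCast_cpow_of_pos (by omega), Complex.neg_re, Complex.ofReal_re,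
          Real.inv_rpow (Nat.cast_nonneg n), Real.rpow_neg (Nat.cast_nonneg n)]
      simp only [this]
      apply tendsto_rpow_atTop_of_base_lt_one
      · have : (0 : ℝ) ≤ (n : ℝ)⁻¹ := by positivity
        linarith
      · rw [inv_lt_one_iff₀]
        right
        exact_mod_cast (by omega : 1 < n)
  simpa [hN] using h

/-- **Bohr's equivalence principle** (with Hurwitz's theorem): a zero of the equivalent series
gives a zero of the partial sum of the L-series. -/
theorem exists_zero (χ : DirichletCharacter ℂ k) (v : ℕ → ℂ)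
    (hv0 : ∀ p, p.Prime → p ∣ k → v p = 0) (hv1 : ∀ p, p.Prime → ¬ p ∣ k → ‖v p‖ = 1)
    (N : ℕ) (hN : 1 ≤ N) (σ : ℝ) (hσ : 1 < σ) (h0 : PC v N (σ : ℂ) = 0) :
    ∃ s : ℂ, 1 < s.re ∧ PS χ N s = 0 := by
  by_contra hcon
  push Not at hcon
  have han : AnalyticOnNhd ℂ (PC v N) Set.univ :=
    (PC_differentiable v N).differentiableOn.analyticOnNhd isOpen_univ
  have hne : ∀ᶠ z in 𝓝[≠] (σ : ℂ), PC v N z ≠ 0 := by
    rcases (han (σ : ℂ) (Set.mem_univ _)).eventually_eq_zero_or_eventually_ne_zero with h | h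
    · exfalso
      have h1 : Set.EqOn (PC v N) 0 Set.univ :=
        han.eqOn_zero_of_preconnected_of_eventuallyEq_zero isPreconnected_univ (Set.mem_univ _) h
      have h2 := PC_tendsto v N hN
      have h3 : (fun x : ℝ => PC v N (x : ℂ)) = fun _ => 0 := by
        funext x
        exact h1 (Set.mem_univ _)
      rw [h3] at h2
      exact zero_ne_one (tendsto_nhds_unique tendsto_const_nhds h2)
    · exact h
  rw [eventually_nhdsWithin_iff, Metric.eventually_nhds_iff] at hne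
  obtain ⟨r, hr, hball⟩ := hne
  set ρ : ℝ := min r (σ - 1) / 2 with hρ
  have hρ0 : 0 < ρ := by
    rw [hρ]
    have := lt_min hr (sub_pos.2 hσ)
    linarith
  have hρr : ρ < r := by
    rw [hρ]
    have := min_le_left r (σ - 1)
    linarith
  have hρσ : ρ < σ - 1 := by
    rw [hρ]
    have := min_le_right r (σ - 1)
    linarith
  have hre : ∀ z ∈ Metric.closedBall (σ : ℂ) ρ, 1 < z.re := by
    intro z hz
    rw [Metric.mem_closedBall, Complex.dist_eq] at hz
    have h1 := Complex.abs_re_le_norm (z - (σ : ℂ))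
    rw [Complex.sub_re, Complex.ofReal_re, abs_le] at h1
    linarith [h1.1]
  have hsne : (Metric.sphere (σ : ℂ) ρ).Nonempty := NormedSpace.sphere_nonempty.2 hρ0.le
  obtain ⟨z0, hz0, hmin⟩ := (isCompact_sphere (σ : ℂ) ρ).exists_isMinOn hsne
    ((PC_differentiable v N).continuous.norm.continuousOn)
  set m : ℝ := ‖PC v N z0‖ with hm
  have hm0 : 0 < m := by
    rw [hm, norm_pos_iff]
    rw [mem_sphere_iff_norm] at hz0
    apply hball
    · rw [Complex.dist_eq, hz0]; exact hρr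
    · intro h
      rw [Set.mem_singleton_iff] at h
      rw [h, sub_self, norm_zero] at hz0
      linarith
  obtain ⟨τ, hτ⟩ := PS_close χ v hv0 hv1 N (m / 3) (by positivity)
  have hGne : ∀ z ∈ Metric.closedBall (σ : ℂ) ρ, PS χ N (z + (τ : ℂ) * Complex.I) ≠ 0 := by
    intro z hz
    apply hcon
    have := hre z hz
    simpa using this
  have hGd : Differentiable ℂ fun z : ℂ => PS χ N (z + (τ : ℂ) * Complex.I) :=
    (PS_differentiable χ N).comp (differentiable_id.add_const _)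
  have hinv : DiffContOnCl ℂ (fun z : ℂ => (PS χ N (z + (τ : ℂ) * Complex.I))⁻¹)
      (Metric.ball (σ : ℂ) ρ) := by
    refine ⟨?_, ?_⟩
    · intro z hz
      exact (hGd z).differentiableWithinAt.inv (hGne z (Metric.ball_subset_closedBall hz))
    · rw [closure_ball (σ : ℂ) hρ0.ne']
      exact hGd.continuous.continuousOn.inv₀ hGne
  have hbound : ∀ z ∈ frontier (Metric.ball (σ : ℂ) ρ),
      ‖(PS χ N (z + (τ : ℂ) * Complex.I))⁻¹‖ ≤ 3 / (2 * m) := by
    intro z hz
    rw [frontier_ball (σ : ℂ) hρ0.ne'] at hz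
    have hz1 : 1 < z.re := hre z (Metric.sphere_subset_closedBall hz)
    have h1 := hτ z (by linarith)
    have h2 : m ≤ ‖PC v N z‖ := hmin hz
    have h3 : 2 * m / 3 ≤ ‖PS χ N (z + (τ : ℂ) * Complex.I)‖ := by
      have h4 : ‖PC v N z‖ - ‖PS χ N (z + (τ : ℂ) * Complex.I)‖ ≤
          ‖PS χ N (z + (τ : ℂ) * Complex.I) - PC v N z‖ := by
        rw [norm_sub_rev]; exact norm_sub_norm_le _ _
      linarith
    rw [norm_inv, inv_le_comm₀ (by linarith) (by positivity)]
    calc (3 / (2 * m))⁻¹ = 2 * m / 3 := by rw [inv_div]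
      _ ≤ _ := h3
  have hfin := Complex.norm_le_of_forall_mem_frontier_norm_le Metric.isBounded_ball hinv hbound
    (subset_closure (Metric.mem_ball_self hρ0))
  have h1 := hτ (σ : ℂ) (by simp; linarith)
  rw [h0, sub_zero] at h1
  have hpos : 0 < ‖PS χ N ((σ : ℂ) + (τ : ℂ) * Complex.I)‖ :=
    norm_pos_iff.2 (hGne _ (Metric.mem_closedBall_self hρ0.le))
  rw [norm_inv, inv_le_comm₀ hpos (by positivity), inv_div] at hfin
  linarith

end Pool.Agent.P8H19.TP
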