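import Mathlib

set_option autoImplicit false

/-!
# Closing a polygon with sides of prescribed lengths
-/

namespace Pool.Agent.P8H19.TP

open Finset

/-- signs that keep all partial sums small -/
lemma exists_signs {ι : Type*} [DecidableEq ι] (s : Finset ι) (a : ι → ℝ) (A : ℝ) (hA : 0 ≤ A)
    (ha : ∀ i ∈ s, 0 ≤ a i ∧ a i ≤ A) :
    ∃ e : ι → ℝ, (∀ i, e i = 1 ∨ e i = -1) ∧ |∑ i ∈ s, e i * a i| ≤ A := by
  induction s using Finset.induction_on with
  | empty => exact ⟨fun _ => 1, fun _ => Or.inl rfl, by simpa using hA⟩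
  | insert i s hi ih =>
    obtain ⟨e, he, hs⟩ := ih (fun j hj => ha j (Finset.mem_insert_of_mem hj))
    have hai := ha i (Finset.mem_insert_self i s)
    have hrest : ∀ c : ℝ, ∑ j ∈ s, Function.update e i c j * a j = ∑ j ∈ s, e j * a j := by
      intro c
      apply Finset.sum_congr rfl
      intro j hj
      rw [Function.update_of_ne]
      rintro rfl
      exact hi hj
    rw [abs_le] at hs
    by_cases h0 : 0 ≤ ∑ j ∈ s, e j * a j
    · refine ⟨Function.update e i (-1), fun j => ?_, ?_⟩
      · by_cases hj : j = i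
        · subst hj; right; simp
        · rw [Function.update_of_ne hj]; exact he j
      · rw [Finset.sum_insert hi, hrest, Function.update_self, abs_le]
        constructor <;> linarith [hai.1, hai.2]
    · push Not at h0
      refine ⟨Function.update e i 1, fun j => ?_, ?_⟩
      · by_cases hj : j = i
        · subst hj; left; simp
        · rw [Function.update_of_ne hj]; exact he j
      · rw [Finset.sum_insert hi, hrest, Function.update_self, abs_le]
        constructor <;> linarith [hai.1, hai.2]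

/-- a unimodular factor that makes a number real and nonnegative -/
lemma exists_phase (z : ℂ) : ∃ θ : ℝ, Complex.exp (θ * Complex.I) * z = ‖z‖ := by
  refine ⟨-z.arg, ?_⟩
  conv_lhs => rw [← Complex.norm_mul_exp_arg_mul_I z]
  push_cast
  rw [mul_left_comm, ← Complex.exp_add]
  simp

/-- If no side is longer than the sum of the others, the polygon can be closed. -/
theorem polygon {ι : Type*} [DecidableEq ι] (s : Finset ι) (z : ι → ℂ)
    (h : ∀ i ∈ s, ‖z i‖ ≤ ∑ j ∈ s.erase i, ‖z j‖) :
    ∃ w : ι → ℂ, (∀ i, ‖w i‖ = 1) ∧ ∑ i ∈ s, w i * z i = 0 := by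
  rcases s.eq_empty_or_nonempty with rfl | hne
  · exact ⟨fun _ => 1, by simp, by simp⟩
  obtain ⟨i, hi, himax⟩ := Finset.exists_max_image s (fun i => ‖z i‖) hne
  have hph : ∀ j, ∃ θ : ℝ, Complex.exp (θ * Complex.I) * z j = ‖z j‖ := fun j => exists_phase (z j)
  choose θ hθ using hph
  obtain ⟨e, he, hes⟩ := exists_signs (s.erase i) (fun j => ‖z j‖) ‖z i‖ (norm_nonneg _)
    (fun j hj => ⟨norm_nonneg _, himax j (Finset.mem_of_mem_erase hj)⟩)
  have hes' : ∀ j, ∃ α : ℝ, Complex.exp (α * Complex.I) = (e j : ℂ) := by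
    intro j
    rcases he j with h1 | h1
    · exact ⟨0, by simp [h1]⟩
    · exact ⟨Real.pi, by simp [h1, Complex.exp_pi_mul_I]⟩
  choose α hα using hes'
  let G : ℝ → ℝ := fun t => ‖∑ j ∈ s.erase i, Complex.exp ((θ j + t * α j : ℝ) * Complex.I) * z j‖
  have hGc : Continuous G := by
    apply Continuous.norm
    apply continuous_finsetSum
    intro j _
    fun_prop
  have hG0 : G 0 = ∑ j ∈ s.erase i, ‖z j‖ := by
    simp only [G, zero_mul, add_zero]
    simp only [hθ]
    rw [← Complex.ofReal_sum, Complex.norm_real, Real.norm_eq_abs, abs_of_nonneg]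
    exact Finset.sum_nonneg fun _ _ => norm_nonneg _
  have hG1 : G 1 ≤ ‖z i‖ := by
    simp only [G, one_mul]
    have : ∀ j, Complex.exp ((θ j + α j : ℝ) * Complex.I) * z j = ((e j * ‖z j‖ : ℝ) : ℂ) := by
      intro j
      push_cast
      rw [add_mul, Complex.exp_add, mul_assoc, mul_left_comm, hθ, hα]
    simp only [this]
    rw [← Complex.ofReal_sum, Complex.norm_real, Real.norm_eq_abs]
    exact hes
  have hivt : ‖z i‖ ∈ Set.Icc (G 1) (G 0) := ⟨hG1, by rw [hG0]; exact h i hi⟩
  obtain ⟨t, _, ht⟩ := intermediate_value_Icc' (zero_le_one) hGc.continuousOn hivt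
  obtain ⟨β, hβ⟩ := exists_phase (∑ j ∈ s.erase i, Complex.exp ((θ j + t * α j : ℝ) * Complex.I) * z j)
  refine ⟨fun j => if j = i then - Complex.exp (θ i * Complex.I) else
    Complex.exp (β * Complex.I) * Complex.exp ((θ j + t * α j : ℝ) * Complex.I), fun j => ?_, ?_⟩
  · dsimp only
    split_ifs
    · rw [norm_neg, Complex.norm_exp_ofReal_mul_I]
    · rw [norm_mul, Complex.norm_exp_ofReal_mul_I, Complex.norm_exp_ofReal_mul_I, one_mul]
  · rw [← Finset.add_sum_erase s _ hi]
    have h1 : ∑ x ∈ s.erase i, (if x = i then - Complex.exp (θ i * Complex.I) else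
        Complex.exp (β * Complex.I) * Complex.exp ((θ x + t * α x : ℝ) * Complex.I)) * z x =
        Complex.exp (β * Complex.I) *
          ∑ j ∈ s.erase i, Complex.exp ((θ j + t * α j : ℝ) * Complex.I) * z j := by
      rw [Finset.mul_sum]
      apply Finset.sum_congr rfl
      intro j hj
      rw [if_neg (Finset.ne_of_mem_erase hj), mul_assoc]
    rw [h1]
    beta_reduce
    rw [if_pos rfl, hβ, neg_mul, hθ]
    have h2 : ‖∑ j ∈ s.erase i, Complex.exp ((θ j + t * α j : ℝ) * Complex.I) * z j‖ = ‖z i‖ := ht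
    rw [h2]
    simp

end Pool.Agent.P8H19.TP
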