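import Mathlib
import Pool.Agent.P8H19.TP.Poly
import Pool.Agent.P8H19.TP.Bohr
import Pool.Agent.H447R2.ML.Q1

set_option autoImplicit false

/-!
# The last block of primes
-/

namespace Pool.Agent.P8H19.TP

open Finset Filter Topology

/-- partial sums at a real point -/
noncomputable def FS (v : ℕ → ℂ) (N : ℕ) (σ : ℝ) : ℂ :=
  ∑ n ∈ Icc 1 N, cm v n * (((n : ℝ) ^ (-σ) : ℝ) : ℂ)

lemma PC_ofReal (v : ℕ → ℂ) (N : ℕ) (σ : ℝ) : PC v N (σ : ℂ) = FS v N σ := by
  unfold PC FS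
  apply Finset.sum_congr rfl
  intro n _
  rw [Complex.ofReal_cpow (Nat.cast_nonneg n)]
  push_cast
  rfl

lemma FS_continuous (v : ℕ → ℂ) (N : ℕ) : Continuous (FS v N) := by
  unfold FS
  apply continuous_finsetSum
  intro n hn
  have hn0 : (n : ℝ) ≠ 0 := by
    have := (mem_Icc.1 hn).1
    exact_mod_cast (by omega : n ≠ 0)
  apply Continuous.mul continuous_const
  apply Complex.continuous_ofReal.comp
  exact continuous_const.rpow continuous_neg (fun _ => Or.inl hn0)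

lemma FS_congr {v v' : ℕ → ℂ} {N : ℕ} (σ : ℝ) (h : ∀ p, p.Prime → p ≤ N → v p = v' p) :
    FS v N σ = FS v' N σ := by
  unfold FS
  apply Finset.sum_congr rfl
  intro n hn
  have hn' := mem_Icc.1 hn
  rw [cm_congr (v := v) (v' := v')]
  intro p hp hpn
  exact h p hp ((Nat.le_of_dvd (by omega) hpn).trans hn'.2)

/-- the primes in `(√N, N]` -/
def BP (N : ℕ) : Finset ℕ := (Icc 1 N).filter (fun p => p.Prime ∧ N < p * p)

lemma mem_BP {N p : ℕ} : p ∈ BP N ↔ p ≤ N ∧ p.Prime ∧ N < p * p := by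
  unfold BP
  rw [mem_filter, mem_Icc]
  constructor
  · rintro ⟨⟨_, h2⟩, h3, h4⟩; exact ⟨h2, h3, h4⟩
  · rintro ⟨h2, h3, h4⟩; exact ⟨⟨h3.one_le, h2⟩, h3, h4⟩

/-- the part of the sum without prime factors in the block -/
noncomputable def S0 (v : ℕ → ℂ) (N : ℕ) (σ : ℝ) : ℂ :=
  ∑ n ∈ (Icc 1 N).filter (fun n => ∀ p ∈ BP N, ¬ p ∣ n), cm v n * (((n : ℝ) ^ (-σ) : ℝ) : ℂ)

lemma S0_continuous (v : ℕ → ℂ) (N : ℕ) : Continuous (S0 v N) := by
  unfold S0
  apply continuous_finsetSum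
  intro n hn
  have hn0 : (n : ℝ) ≠ 0 := by
    have := (mem_Icc.1 (mem_filter.1 hn).1).1
    exact_mod_cast (by omega : n ≠ 0)
  apply Continuous.mul continuous_const
  apply Complex.continuous_ofReal.comp
  exact continuous_const.rpow continuous_neg (fun _ => Or.inl hn0)

/-- splitting off the primes of the block -/
lemma FS_split (v w : ℕ → ℂ) (N : ℕ) (σ : ℝ) :
    FS (fun p => if p ∈ BP N then w p else v p) N σ =
      S0 v N σ + ∑ p ∈ BP N, w p * ((((p : ℝ) ^ (-σ) : ℝ) : ℂ) * FS v (N / p) σ) := by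
  classical
  set v' : ℕ → ℂ := fun p => if p ∈ BP N then w p else v p with hv'
  set f : ℕ → ℂ := fun n => cm v' n * (((n : ℝ) ^ (-σ) : ℝ) : ℂ) with hf
  have h1 : FS v' N σ = ∑ n ∈ (Icc 1 N).filter (fun n => ∀ p ∈ BP N, ¬ p ∣ n), f n +
      ∑ n ∈ (Icc 1 N).filter (fun n => ¬ ∀ p ∈ BP N, ¬ p ∣ n), f n := by
    rw [Finset.sum_filter_add_sum_filter_not]
    rfl
  have h2 : (Icc 1 N).filter (fun n => ¬ ∀ p ∈ BP N, ¬ p ∣ n) =
      (BP N).biUnion (fun p => (Icc 1 N).filter (fun n => p ∣ n)) := by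
    ext n
    simp only [mem_filter, mem_biUnion, not_forall, not_not]
    constructor
    · rintro ⟨h3, p, hp, hpn⟩; exact ⟨p, hp, h3, hpn⟩
    · rintro ⟨p, hp, h3, hpn⟩; exact ⟨h3, p, hp, hpn⟩
  have h3 : (↑(BP N) : Set ℕ).PairwiseDisjoint (fun p => (Icc 1 N).filter (fun n => p ∣ n)) := by
    intro p hp p' hp' hne
    rw [Function.onFun, Finset.disjoint_left]
    intro n hn hn'
    rw [mem_filter, mem_Icc] at hn hn'
    have hp1 := mem_BP.1 (Finset.mem_coe.1 hp)
    have hp2 := mem_BP.1 (Finset.mem_coe.1 hp')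
    have hco : Nat.Coprime p p' := (Nat.coprime_primes hp1.2.1 hp2.2.1).2 hne
    have hdvd : p * p' ∣ n := hco.mul_dvd_of_dvd_of_dvd hn.2 hn'.2
    have hle : p * p' ≤ N := (Nat.le_of_dvd (by omega) hdvd).trans hn.1.2
    have h4 := hp1.2.2
    have h5 := hp2.2.2
    rcases Nat.lt_or_ge p p' with h6 | h6
    · nlinarith
    · nlinarith
  rw [h1, h2, Finset.sum_biUnion h3]
  congr 1
  · unfold S0
    apply Finset.sum_congr rfl
    intro n hn
    rw [mem_filter] at hn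
    rw [hf]
    dsimp only
    congr 1
    apply cm_congr
    intro p _ hpn
    rw [hv']
    dsimp only
    rw [if_neg]
    intro hp
    exact hn.2 p hp hpn
  · apply Finset.sum_congr rfl
    intro p hp
    have hp1 := mem_BP.1 hp
    have hp0 : 0 < p := hp1.2.1.pos
    have h4 : (Icc 1 N).filter (fun n => p ∣ n) = (Icc 1 (N / p)).image (fun m => p * m) := by
      ext n
      simp only [mem_filter, mem_image, mem_Icc]
      constructor
      · rintro ⟨⟨h5, h6⟩, m, rfl⟩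
        refine ⟨m, ⟨?_, ?_⟩, rfl⟩
        · rcases Nat.eq_zero_or_pos m with rfl | h; · simp at h5
          exact h
        · rw [Nat.le_div_iff_mul_le hp0]; linarith [Nat.mul_comm m p]
      · rintro ⟨m, ⟨h5, h6⟩, rfl⟩
        rw [Nat.le_div_iff_mul_le hp0] at h6
        refine ⟨⟨?_, by linarith [Nat.mul_comm m p]⟩, Dvd.intro m rfl⟩
        nlinarith
    rw [h4, Finset.sum_image (fun a _ b _ hab => Nat.eq_of_mul_eq_mul_left hp0 hab)]
    rw [FS, Finset.mul_sum, Finset.mul_sum]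
    apply Finset.sum_congr rfl
    intro m hm
    have hm' := mem_Icc.1 hm
    have hmp : m * p ≤ N := (Nat.le_div_iff_mul_le hp0).1 hm'.2
    rw [hf]
    dsimp only
    rw [cm_mul v' hp0.ne' (by omega), cm_prime v' hp1.2.1]
    have h5 : v' p = w p := by rw [hv']; dsimp only; rw [if_pos hp]
    have h6 : cm v' m = cm v m := by
      apply cm_congr
      intro l hl hlm
      rw [hv']
      dsimp only
      rw [if_neg]
      intro hlB
      have hl1 := mem_BP.1 hlB
      have h7 : l ≤ m := Nat.le_of_dvd (by omega) hlm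
      have h8 := hl1.2.2
      have h9 := hp1.2.2
      rcases Nat.lt_or_ge l p with h10 | h10
      · nlinarith
      · nlinarith
    rw [h5, h6]
    push_cast
    rw [Real.mul_rpow (Nat.cast_nonneg p) (Nat.cast_nonneg m)]
    push_cast
    ring

/-! ### The prime number theorem for the two blocks -/

/-- primes `p` with `b p ≤ N < a p`, i.e. in `(N/a, N/b]` -/
def QP (a b N : ℕ) : Finset ℕ := (Icc 1 N).filter (fun p => p.Prime ∧ b * p ≤ N ∧ N < a * p)

lemma QP_lower (a b : ℕ) (hb : 0 < b) (hab : b < a) :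
    ∃ c : ℝ, 0 < c ∧ ∀ᶠ N : ℕ in atTop, c / Real.log N ≤ ∑ p ∈ QP a b N, (p : ℝ)⁻¹ := by
  have ha0 : (0 : ℝ) < a := by exact_mod_cast (by omega : 0 < a)
  have hb0 : (0 : ℝ) < b := by exact_mod_cast hb
  have hab' : (b : ℝ) < a := by exact_mod_cast hab
  set l : ℝ := Real.log ((a : ℝ) / b) with hl
  have hl0 : 0 < l := Real.log_pos ((one_lt_div hb0).2 hab')
  have hel : Real.exp l = (a : ℝ) / b := Real.exp_log (by positivity)
  have h1 := Pool.Agent.H447R2.ML.RL_tendsto hl0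
  have hN : Tendsto (fun N : ℕ => (N : ℝ) / a) atTop atTop :=
    tendsto_natCast_atTop_atTop.atTop_div_const ha0
  have h2 := h1.comp hN
  have h3 : ∀ᶠ N : ℕ in atTop, l / 2 < Pool.Agent.H447R2.ML.RL l ((N : ℝ) / a) *
      Real.log ((N : ℝ) / a) := h2.eventually (lt_mem_nhds (by linarith))
  refine ⟨l / 2, by positivity, ?_⟩
  filter_upwards [h3, eventually_gt_atTop (a + 1)] with N h4 h5
  have hNR : (a : ℝ) + 1 < N := by exact_mod_cast h5
  have hlogN : 0 < Real.log ((N : ℝ) / a) := by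
    apply Real.log_pos
    rw [one_lt_div ha0]
    linarith
  have hlogN2 : Real.log ((N : ℝ) / a) ≤ Real.log N := by
    apply Real.log_le_log (div_pos (by linarith) ha0)
    apply div_le_self (by positivity)
    exact_mod_cast (by omega : 1 ≤ a)
  have hlogN3 : 0 < Real.log N := hlogN.trans_le hlogN2
  have h6 : Pool.Agent.H447R2.ML.RL l ((N : ℝ) / a) = ∑ p ∈ QP a b N, (p : ℝ)⁻¹ := by
    unfold Pool.Agent.H447R2.ML.RL QP Pool.Agent.H305R2.pr
    have h7 : Real.exp l * ((N : ℝ) / a) = (N : ℝ) / b := by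
      rw [hel]; field_simp
    rw [h7]
    have h8 : ∀ x : ℕ, ((x : ℝ)⁻¹ * if x.Prime then 1 else 0) = if x.Prime then (x : ℝ)⁻¹ else 0 := by
      intro x; split_ifs <;> simp
    simp only [h8]
    rw [← Finset.sum_filter]
    congr 1
    ext p
    simp only [mem_filter, mem_Ioc, mem_Icc]
    rw [Nat.floor_lt (by positivity), Nat.le_floor_iff (by positivity), div_lt_iff₀ ha0,
      le_div_iff₀ hb0]
    have e1 : ((N : ℝ) < p * a) ↔ N < a * p := by
      rw [mul_comm]; exact_mod_cast Iff.rfl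
    have e2 : ((p : ℝ) * b ≤ N) ↔ b * p ≤ N := by
      rw [mul_comm]; exact_mod_cast Iff.rfl
    rw [e1, e2]
    constructor
    · rintro ⟨⟨h9, h10⟩, h11⟩
      refine ⟨⟨h11.one_le, ?_⟩, h11, h10, h9⟩
      nlinarith
    · rintro ⟨⟨_, _⟩, h11, h10, h9⟩
      exact ⟨⟨h9, h10⟩, h11⟩
  rw [← h6, div_le_iff₀ hlogN3]
  have h9 : 0 ≤ Pool.Agent.H447R2.ML.RL l ((N : ℝ) / a) := Pool.Agent.H447R2.ML.RL_nonneg _ _
  calc l / 2 ≤ Pool.Agent.H447R2.ML.RL l ((N : ℝ) / a) * Real.log ((N : ℝ) / a) := h4.le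
    _ ≤ Pool.Agent.H447R2.ML.RL l ((N : ℝ) / a) * Real.log N := by gcongr

end Pool.Agent.P8H19.TP
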