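import Mathlib
import Pool.Agent.P8H19.TP.Block

set_option autoImplicit false

/-!
# Closing the sum with the last block of primes
-/

namespace Pool.Agent.P8H19.TP

open Finset Filter Topology

/-- the test function: `0` at the primes dividing `k`, `i` at `q` and `-1` at all other primes -/
noncomputable def tg (k q : ℕ) (p : ℕ) : ℂ := if p ∣ k then 0 else if p = q then Complex.I else -1

lemma norm_tg_le (k q p : ℕ) : ‖tg k q p‖ ≤ 1 := by
  unfold tg; split_ifs <;> simp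

section
variable {k q : ℕ} (hq : q.Prime) (hqk : ¬ q ∣ k) (hmin : ∀ p, p.Prime → p < q → p ∣ k)
include hmin

lemma cm_tg_small {n : ℕ} (h1 : 1 < n) (h2 : n < q) : cm (tg k q) n = 0 := by
  have hp := Nat.minFac_prime (by omega : n ≠ 1)
  apply cm_eq_zero hp n.minFac_dvd (by omega)
  unfold tg
  rw [if_pos (hmin _ hp ((Nat.minFac_le (by omega)).trans_lt h2))]

lemma FS_small {m : ℕ} (h1 : 1 ≤ m) (h2 : m < q) : FS (tg k q) m 1 = 1 := by
  unfold FS
  rw [Finset.sum_eq_single 1]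
  · simp [cm_one]
  · intro n hn hn1
    have hn' := mem_Icc.1 hn
    rw [cm_tg_small hmin (by omega) (by omega), zero_mul]
  · intro h
    exact absurd (mem_Icc.2 ⟨le_refl 1, h1⟩) h

include hq hqk in
lemma FS_q : FS (tg k q) q 1 = 1 + Complex.I / q := by
  have h1 : Icc 1 q = insert q (Icc 1 (q - 1)) := by
    ext n
    simp only [mem_Icc, mem_insert]
    have := hq.two_le
    omega
  have h2 := FS_small hmin (m := q - 1) (by have := hq.two_le; omega) (by have := hq.two_le; omega)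
  unfold FS at h2 ⊢
  rw [h1, Finset.sum_insert (by rw [mem_Icc]; have := hq.two_le; omega), h2, cm_prime _ hq]
  unfold tg
  rw [if_neg hqk, if_pos rfl, Real.rpow_neg_one]
  push_cast
  rw [add_comm, div_eq_mul_inv]

end

/-- the vectors of the polygon -/
noncomputable def zf (k q N : ℕ) (σ : ℝ) (i : ℕ) : ℂ :=
  if i = 0 then S0 (tg k q) N σ else (((i : ℝ) ^ (-σ) : ℝ) : ℂ) * FS (tg k q) (N / i) σ

lemma zf_continuous (k q N i : ℕ) : Continuous fun σ => zf k q N σ i := by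
  unfold zf
  by_cases hi : i = 0
  · simp only [if_pos hi]; exact S0_continuous _ _
  · simp only [if_neg hi]
    apply Continuous.mul _ (FS_continuous _ _)
    apply Complex.continuous_ofReal.comp
    exact continuous_const.rpow continuous_neg (fun _ => Or.inl (by exact_mod_cast hi))

lemma kappa_ineq (s : ℂ) (a b c : ℝ) (hc : 0 ≤ c) (ha : c ≤ a) (hb : c ≤ b) :
    ‖(a : ℂ) + s * b‖ ≤ a + ‖s‖ * b - (1 + ‖s‖ - ‖1 + s‖) * c := by
  have h1 : (a : ℂ) + s * b = ((a - c : ℝ) : ℂ) + s * ((b - c : ℝ) : ℂ) + (1 + s) * (c : ℂ) := by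
    push_cast; ring
  rw [h1]
  calc ‖((a - c : ℝ) : ℂ) + s * ((b - c : ℝ) : ℂ) + (1 + s) * (c : ℂ)‖
      ≤ ‖((a - c : ℝ) : ℂ)‖ + ‖s * ((b - c : ℝ) : ℂ)‖ + ‖(1 + s) * (c : ℂ)‖ := norm_add₃_le
    _ = (a - c) + ‖s‖ * (b - c) + ‖1 + s‖ * c := by
        rw [norm_mul, norm_mul, Complex.norm_real, Complex.norm_real, Complex.norm_real,
          Real.norm_eq_abs, Real.norm_eq_abs, Real.norm_eq_abs, abs_of_nonneg (by linarith),
          abs_of_nonneg (by linarith), abs_of_nonneg hc]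
    _ = _ := by ring

lemma kappa_pos {q : ℕ} (hq : 0 < q) :
    0 < 1 + ‖(1 : ℂ) + Complex.I / q‖ - ‖1 + ((1 : ℂ) + Complex.I / q)‖ := by
  have hq0 : (0 : ℝ) < q := by exact_mod_cast hq
  have h1 : ‖(1 : ℂ) + Complex.I / q‖ = Real.sqrt (1 + ((q : ℝ)⁻¹) ^ 2) := by
    have : (1 : ℂ) + Complex.I / q = ((1 : ℝ) : ℂ) + (((q : ℝ)⁻¹ : ℝ) : ℂ) * Complex.I := by
      push_cast; ring
    rw [this, Complex.norm_add_mul_I]
    norm_num
  have h2 : ‖1 + ((1 : ℂ) + Complex.I / q)‖ = Real.sqrt (2 ^ 2 + ((q : ℝ)⁻¹) ^ 2) := by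
    have : 1 + ((1 : ℂ) + Complex.I / q) = ((2 : ℝ) : ℂ) + (((q : ℝ)⁻¹ : ℝ) : ℂ) * Complex.I := by
      push_cast; ring
    rw [this, Complex.norm_add_mul_I]
  rw [h1, h2]
  have hx : 0 < ((q : ℝ)⁻¹) ^ 2 := by positivity
  set x := ((q : ℝ)⁻¹) ^ 2 with hxdef
  have h3 : 1 < Real.sqrt (1 + x) := by
    rw [Real.lt_sqrt (by norm_num)]; linarith
  have h4 : Real.sqrt (2 ^ 2 + x) < 1 + Real.sqrt (1 + x) := by
    rw [Real.sqrt_lt' (by linarith)]
    have h5 : Real.sqrt (1 + x) ^ 2 = 1 + x := Real.sq_sqrt (by linarith)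
    nlinarith
  linarith

lemma norm_FS_le (v : ℕ → ℂ) (hv : ∀ p, p.Prime → ‖v p‖ ≤ 1) (N : ℕ) :
    ‖FS v N 1‖ ≤ 1 + Real.log N := by
  unfold FS
  calc ‖∑ n ∈ Icc 1 N, cm v n * (((n : ℝ) ^ (-1 : ℝ) : ℝ) : ℂ)‖
      ≤ ∑ n ∈ Icc 1 N, ‖cm v n * (((n : ℝ) ^ (-1 : ℝ) : ℝ) : ℂ)‖ := norm_sum_le _ _
    _ ≤ ∑ n ∈ Icc 1 N, (n : ℝ)⁻¹ := by
        apply Finset.sum_le_sum
        intro n _
        rw [norm_mul, Real.rpow_neg_one, Complex.norm_real, Real.norm_eq_abs,
          abs_of_nonneg (by positivity)]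
        calc ‖cm v n‖ * (n : ℝ)⁻¹ ≤ 1 * (n : ℝ)⁻¹ := by
              gcongr
              exact norm_cm_le_one hv n
          _ = (n : ℝ)⁻¹ := one_mul _
    _ = ((harmonic N : ℚ) : ℝ) := by
        rw [harmonic_eq_sum_Icc]; push_cast; rfl
    _ ≤ 1 + Real.log N := harmonic_le_one_add_log N

/-- **The last block.** If the sums of the test function are small somewhere, some completely
multiplicative function with unimodular values has a vanishing partial sum to the right of `1`. -/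
theorem exists_vanishing {k q : ℕ} (hk : k ≠ 0) (hq : q.Prime) (hqk : ¬ q ∣ k)
    (hmin : ∀ p, p.Prime → p < q → p ∣ k)
    (hsmall : ∀ ε : ℝ, 0 < ε → ∀ X : ℕ, ∃ N : ℕ, X ≤ N ∧ ‖FS (tg k q) N 1‖ < ε / Real.log N)
    (X : ℕ) :
    ∃ N : ℕ, X ≤ N ∧ ∃ v : ℕ → ℂ, (∀ p, p.Prime → p ∣ k → v p = 0) ∧
      (∀ p, p.Prime → ¬ p ∣ k → ‖v p‖ = 1) ∧ ∃ σ : ℝ, 1 < σ ∧ FS v N σ = 0 := by
  classical
  obtain ⟨c1, hc1, hQ1⟩ := QP_lower q 1 one_pos hq.one_lt
  obtain ⟨c2, hc2, hQ2⟩ := QP_lower (q + 1) q hq.pos (Nat.lt_succ_self q)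
  set c : ℝ := min c1 c2 with hcdef
  have hc : 0 < c := lt_min hc1 hc2
  set κ : ℝ := 1 + ‖(1 : ℂ) + Complex.I / q‖ - ‖1 + ((1 : ℂ) + Complex.I / q)‖ with hκdef
  have hκ : 0 < κ := kappa_pos hq.pos
  -- eventual inequality
  have hev : ∀ᶠ N : ℕ in atTop, (1 + Real.log N) / Real.sqrt N + q / N < c / Real.log N := by
    have h1 : Tendsto (fun x : ℝ => Real.log x * (1 + Real.log x) / x ^ (1 / 2 : ℝ) +
        q * (Real.log x / x)) atTop (𝓝 (0 + q * 0)) := by
      apply Tendsto.add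
      · have h2 : Tendsto (fun x : ℝ => Real.log x / x ^ (1 / 4 : ℝ)) atTop (𝓝 0) :=
          (isLittleO_log_rpow_atTop (by norm_num)).tendsto_div_nhds_zero
        have h3 : Tendsto (fun x : ℝ => 1 / x ^ (1 / 4 : ℝ)) atTop (𝓝 0) := by
          apply Tendsto.div_atTop tendsto_const_nhds
          exact tendsto_rpow_atTop (by norm_num)
        have h4 := h2.mul (h3.add h2)
        simp only [add_zero, mul_zero] at h4
        refine h4.congr' ?_
        filter_upwards [eventually_gt_atTop (0 : ℝ)] with x hx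
        have h5 : x ^ (1 / 2 : ℝ) = x ^ (1 / 4 : ℝ) * x ^ (1 / 4 : ℝ) := by
          rw [← Real.rpow_add hx]; norm_num
        have h6 : 0 < x ^ (1 / 4 : ℝ) := Real.rpow_pos_of_pos hx _
        rw [h5]
        field_simp
      · apply Tendsto.const_mul
        have := (isLittleO_log_rpow_atTop (r := 1) (by norm_num)).tendsto_div_nhds_zero
        simpa using this
    have h2 : Tendsto (fun N : ℕ => Real.log N * (1 + Real.log N) / (N : ℝ) ^ (1 / 2 : ℝ) +
        q * (Real.log N / N)) atTop (𝓝 0) := by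
      rw [mul_zero, add_zero] at h1
      exact h1.comp tendsto_natCast_atTop_atTop
    have h3 := h2.eventually (gt_mem_nhds hc)
    filter_upwards [h3, eventually_gt_atTop 2] with N h4 h5
    have hN : (2 : ℝ) < N := by exact_mod_cast h5
    have hlog : 0 < Real.log N := Real.log_pos (by linarith)
    rw [lt_div_iff₀ hlog]
    rw [← Real.sqrt_eq_rpow] at h4
    calc ((1 + Real.log N) / Real.sqrt N + q / N) * Real.log N
        = Real.log N * (1 + Real.log N) / Real.sqrt N + q * (Real.log N / N) := by ring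
      _ < c := h4
  obtain ⟨X1, hX1⟩ := eventually_atTop.1 ((hQ1.and hQ2).and hev)
  obtain ⟨N, hNX, hNs⟩ := hsmall (κ * c) (by positivity) (X + X1 + (k + q + 1) ^ 2 + 2)
  refine ⟨N, by omega, ?_⟩
  obtain ⟨⟨hN1, hN2⟩, hN3⟩ := hX1 N (by omega)
  have hNbig : (k + q + 1) ^ 2 < N := by omega
  have hq2 := hq.two_le
  have hN0 : (0 : ℝ) < N := by exact_mod_cast (by omega : 0 < N)
  have hlogN : 0 < Real.log N := by
    apply Real.log_pos
    exact_mod_cast (by omega : 1 < N)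
  -- the primes in the block are large
  have hbig : ∀ p ∈ BP N, k + q + 1 < p := by
    intro p hp
    have h1 := (mem_BP.1 hp).2.2
    by_contra h2
    push Not at h2
    nlinarith
  have hsub1 : QP q 1 N ⊆ BP N := by
    intro p hp
    unfold QP at hp
    rw [mem_filter, mem_Icc] at hp
    rw [mem_BP]
    refine ⟨hp.1.2, hp.2.1, ?_⟩
    have h1 := hp.2.2.2
    by_contra h2
    push Not at h2
    have h3 : q < p := by
      by_contra h4
      push Not at h4
      have h5 : q * p ≤ q * q := Nat.mul_le_mul_left q h4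
      have h6 : q * q ≤ (k + q + 1) ^ 2 := by rw [pow_two]; exact Nat.mul_le_mul (by omega) (by omega)
      omega
    nlinarith
  have hsub2 : QP (q + 1) q N ⊆ BP N := by
    intro p hp
    unfold QP at hp
    rw [mem_filter, mem_Icc] at hp
    rw [mem_BP]
    refine ⟨hp.1.2, hp.2.1, ?_⟩
    have h1 := hp.2.2.2
    by_contra h2
    push Not at h2
    have h3 : q + 1 ≤ p := by
      by_contra h4
      push Not at h4
      have h5 : (q + 1) * p ≤ (q + 1) * (q + 1) := Nat.mul_le_mul_left (q + 1) h4.le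
      have h6 : (q + 1) * (q + 1) ≤ (k + q + 1) ^ 2 := by
        rw [pow_two]; exact Nat.mul_le_mul (by omega) (by omega)
      omega
    nlinarith
  have hdisj : Disjoint (QP q 1 N) (QP (q + 1) q N) := by
    rw [Finset.disjoint_left]
    intro p hp hp'
    unfold QP at hp hp'
    rw [mem_filter] at hp hp'
    have h1 := hp.2.2.2
    have h2 := hp'.2.2.1
    omega
  set z : ℕ → ℂ := zf k q N 1 with hz
  have hz0 : z 0 = S0 (tg k q) N 1 := by rw [hz]; simp [zf]
  have hzp : ∀ p ∈ BP N, z p = ((p : ℝ)⁻¹ : ℝ) * FS (tg k q) (N / p) 1 := by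
    intro p hp
    rw [hz]
    unfold zf
    rw [if_neg (mem_BP.1 hp).2.1.ne_zero, Real.rpow_neg_one]
  have h0B : (0 : ℕ) ∉ BP N := by
    intro h
    exact absurd (mem_BP.1 h).2.1 Nat.not_prime_zero
  -- values on the two blocks
  have hzQ1 : ∀ p ∈ QP q 1 N, z p = ((p : ℝ)⁻¹ : ℝ) := by
    intro p hp
    rw [hzp p (hsub1 hp)]
    unfold QP at hp
    rw [mem_filter, mem_Icc] at hp
    have hp0 : 0 < p := hp.2.1.pos
    rw [FS_small hmin, mul_one]
    · rw [Nat.le_div_iff_mul_le hp0]; omega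
    · rw [Nat.div_lt_iff_lt_mul hp0]; exact hp.2.2.2
  have hzQ2 : ∀ p ∈ QP (q + 1) q N, z p = (1 + Complex.I / q) * ((p : ℝ)⁻¹ : ℝ) := by
    intro p hp
    rw [hzp p (hsub2 hp)]
    unfold QP at hp
    rw [mem_filter, mem_Icc] at hp
    have hp0 : 0 < p := hp.2.1.pos
    have : N / p = q := by
      apply Nat.div_eq_of_lt_le
      · exact hp.2.2.1
      · have := hp.2.2.2
        simpa using this
    rw [this, FS_q hq hqk hmin, mul_comm]
  set A : ℝ := ∑ p ∈ QP q 1 N, (p : ℝ)⁻¹ with hA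
  set B : ℝ := ∑ p ∈ QP (q + 1) q N, (p : ℝ)⁻¹ with hB
  have hAc : c / Real.log N ≤ A := by
    refine le_trans ?_ hN1
    gcongr
    exact min_le_left _ _
  have hBc : c / Real.log N ≤ B := by
    refine le_trans ?_ hN2
    gcongr
    exact min_le_right _ _
  have hsumQ1 : ∑ p ∈ QP q 1 N, z p = (A : ℂ) := by
    rw [Finset.sum_congr rfl hzQ1, hA]
    push_cast
    rfl
  have hsumQ2 : ∑ p ∈ QP (q + 1) q N, z p = (1 + Complex.I / q) * (B : ℂ) := by
    rw [Finset.sum_congr rfl hzQ2, ← Finset.mul_sum, hB]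
    push_cast
    rfl
  have hnormQ1 : ∑ p ∈ QP q 1 N, ‖z p‖ = A := by
    rw [hA]
    apply Finset.sum_congr rfl
    intro p hp
    rw [hzQ1 p hp, Complex.norm_real, Real.norm_eq_abs, abs_of_nonneg (by positivity)]
  have hnormQ2 : ∑ p ∈ QP (q + 1) q N, ‖z p‖ = ‖(1 : ℂ) + Complex.I / q‖ * B := by
    rw [hB, Finset.mul_sum]
    apply Finset.sum_congr rfl
    intro p hp
    rw [hzQ2 p hp, norm_mul, Complex.norm_real, Real.norm_eq_abs, abs_of_nonneg (by positivity)]
  -- decomposition of the block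
  set R : Finset ℕ := BP N \ (QP q 1 N ∪ QP (q + 1) q N) with hR
  have hdec : ∀ f : ℕ → ℂ, ∑ p ∈ BP N, f p =
      (∑ p ∈ QP q 1 N, f p + ∑ p ∈ QP (q + 1) q N, f p) + ∑ p ∈ R, f p := by
    intro f
    rw [hR, ← Finset.sum_union hdisj, add_comm, Finset.sum_sdiff (Finset.union_subset hsub1 hsub2)]
  have hdecR : ∀ f : ℕ → ℝ, ∑ p ∈ BP N, f p =
      (∑ p ∈ QP q 1 N, f p + ∑ p ∈ QP (q + 1) q N, f p) + ∑ p ∈ R, f p := by
    intro f
    rw [hR, ← Finset.sum_union hdisj, add_comm, Finset.sum_sdiff (Finset.union_subset hsub1 hsub2)]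
  have hmain : ‖∑ p ∈ BP N, z p‖ ≤ ∑ p ∈ BP N, ‖z p‖ - κ * (c / Real.log N) := by
    rw [hdec, hdecR, hsumQ1, hsumQ2, hnormQ1, hnormQ2]
    have h1 := kappa_ineq (1 + Complex.I / q) A B (c / Real.log N) (by positivity) hAc hBc
    calc ‖(A : ℂ) + (1 + Complex.I / q) * (B : ℂ) + ∑ p ∈ R, z p‖
        ≤ ‖(A : ℂ) + (1 + Complex.I / q) * (B : ℂ)‖ + ‖∑ p ∈ R, z p‖ := norm_add_le _ _
      _ ≤ (A + ‖(1 : ℂ) + Complex.I / q‖ * B - κ * (c / Real.log N)) + ∑ p ∈ R, ‖z p‖ := by
          gcongr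
          exact norm_sum_le _ _
      _ = _ := by ring
  -- the sum of the test function
  have hFS : FS (tg k q) N 1 = z 0 - ∑ p ∈ BP N, z p := by
    have h1 := FS_split (tg k q) (fun _ => -1) N 1
    have h2 : FS (fun p => if p ∈ BP N then (fun _ => (-1 : ℂ)) p else tg k q p) N 1 =
        FS (tg k q) N 1 := by
      apply FS_congr
      intro p _ _
      dsimp only
      split_ifs with h3
      · have h4 := hbig p h3
        unfold tg
        rw [if_neg, if_neg (by omega)]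
        intro h5
        have := Nat.le_of_dvd (Nat.pos_of_ne_zero hk) h5
        omega
      · rfl
    rw [← h2, h1, hz0, sub_eq_add_neg, ← Finset.sum_neg_distrib]
    congr 1
    apply Finset.sum_congr rfl
    intro p hp
    rw [hzp p hp, Real.rpow_neg_one]
    ring
  have hS0lt : ‖z 0‖ < ∑ p ∈ BP N, ‖z p‖ := by
    have h1 : z 0 = FS (tg k q) N 1 + ∑ p ∈ BP N, z p := by rw [hFS]; ring
    have h2 : ‖z 0‖ ≤ ‖FS (tg k q) N 1‖ + ‖∑ p ∈ BP N, z p‖ := by
      rw [h1]; exact norm_add_le _ _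
    have h3 : κ * c / Real.log N = κ * (c / Real.log N) := by ring
    rw [h3] at hNs
    linarith
  have hplt : ∀ p ∈ BP N, ‖z p‖ < ∑ j ∈ (BP N).erase p, ‖z j‖ := by
    intro p hp
    have hp1 := mem_BP.1 hp
    have hp0 : (0 : ℝ) < p := by exact_mod_cast hp1.2.1.pos
    have h1 : ‖z p‖ ≤ (1 + Real.log N) / Real.sqrt N := by
      rw [hzp p hp, norm_mul, Complex.norm_real, Real.norm_eq_abs, abs_of_nonneg (by positivity)]
      have h2 : ‖FS (tg k q) (N / p) 1‖ ≤ 1 + Real.log N := by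
        refine (norm_FS_le _ (fun p _ => norm_tg_le k q p) _).trans ?_
        have h3 : N / p ≤ N := Nat.div_le_self _ _
        have h4 : 0 < N / p := Nat.div_pos hp1.1 hp1.2.1.pos
        gcongr
      have h5 : (p : ℝ)⁻¹ ≤ (Real.sqrt N)⁻¹ := by
        apply inv_anti₀ (Real.sqrt_pos.2 hN0)
        rw [Real.sqrt_le_left hp0.le]
        have := hp1.2.2
        rw [pow_two]
        exact_mod_cast this.le
      calc (p : ℝ)⁻¹ * ‖FS (tg k q) (N / p) 1‖ ≤ (Real.sqrt N)⁻¹ * (1 + Real.log N) := by gcongr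
        _ = _ := by ring
    have h2 : A - q / N ≤ ∑ j ∈ (BP N).erase p, ‖z j‖ := by
      calc A - q / N ≤ ∑ j ∈ (QP q 1 N).erase p, ‖z j‖ := by
            rw [← hnormQ1]
            by_cases hpQ : p ∈ QP q 1 N
            · rw [← Finset.add_sum_erase _ _ hpQ, hzQ1 p hpQ, Complex.norm_real, Real.norm_eq_abs,
                abs_of_nonneg (by positivity)]
              have h3 : (p : ℝ)⁻¹ ≤ q / N := by
                unfold QP at hpQ
                rw [mem_filter] at hpQ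
                rw [inv_le_comm₀ hp0 (by positivity), inv_div, div_le_iff₀ (by positivity)]
                have := hpQ.2.2.2
                rw [mul_comm]
                exact_mod_cast this.le
              linarith
            · rw [Finset.erase_eq_of_notMem hpQ]
              have : (0 : ℝ) ≤ q / N := by positivity
              linarith
        _ ≤ ∑ j ∈ (BP N).erase p, ‖z j‖ := by
            apply Finset.sum_le_sum_of_subset_of_nonneg
            · exact Finset.erase_subset_erase p hsub1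
            · intro _ _ _; exact norm_nonneg _
    linarith
  -- strict inequalities at `σ = 1`
  have hstrict : ∀ i ∈ insert 0 (BP N), ‖zf k q N 1 i‖ <
      ∑ j ∈ (insert 0 (BP N)).erase i, ‖zf k q N 1 j‖ := by
    intro i hi
    rw [mem_insert] at hi
    rcases hi with rfl | hi
    · rw [Finset.erase_insert h0B]
      exact hS0lt
    · have hi0 : i ≠ 0 := (mem_BP.1 hi).2.1.ne_zero
      refine (hplt i hi).trans_le ?_
      apply Finset.sum_le_sum_of_subset_of_nonneg
      · exact Finset.erase_subset_erase i (Finset.subset_insert _ _)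
      · intro _ _ _; exact norm_nonneg _
  have hcont : ∀ᶠ σ in 𝓝 (1 : ℝ), ∀ i ∈ insert 0 (BP N), ‖zf k q N σ i‖ <
      ∑ j ∈ (insert 0 (BP N)).erase i, ‖zf k q N σ j‖ := by
    rw [Filter.eventually_all_finset]
    intro i hi
    have h1 : ContinuousAt (fun σ => ‖zf k q N σ i‖) 1 := (zf_continuous k q N i).norm.continuousAt
    have h2 : ContinuousAt (fun σ => ∑ j ∈ (insert 0 (BP N)).erase i, ‖zf k q N σ j‖) 1 := by
      apply Continuous.continuousAt
      apply continuous_finsetSum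
      intro j _
      exact (zf_continuous k q N j).norm
    exact h1.eventually_lt h2 (hstrict i hi)
  have hcont2 : ∀ᶠ σ in 𝓝[>] (1 : ℝ), (∀ i ∈ insert 0 (BP N), ‖zf k q N σ i‖ <
      ∑ j ∈ (insert 0 (BP N)).erase i, ‖zf k q N σ j‖) ∧ 1 < σ :=
    (hcont.filter_mono nhdsWithin_le_nhds).and self_mem_nhdsWithin
  obtain ⟨σ, hσ, hσ1⟩ := hcont2.exists
  obtain ⟨w, hw1, hw2⟩ := polygon (insert 0 (BP N)) (zf k q N σ) (fun i hi => (hσ i hi).le)
  have hw0 : w 0 ≠ 0 := by rw [← norm_pos_iff, hw1]; exact one_pos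
  refine ⟨fun p => if p ∈ BP N then w p / w 0 else if p ∣ k then 0 else if p = q then Complex.I
    else -1, ?_, ?_, σ, hσ1, ?_⟩
  · intro p _ hpk
    dsimp only
    rw [if_neg, if_pos hpk]
    intro hpB
    have := hbig p hpB
    have := Nat.le_of_dvd (Nat.pos_of_ne_zero hk) hpk
    omega
  · intro p _ hpk
    dsimp only
    split_ifs
    · rw [norm_div, hw1, hw1, div_one]
    · simp
    · simp
  · have h1 := FS_split (tg k q) (fun p => w p / w 0) N σ
    unfold tg at h1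
    rw [h1]
    rw [Finset.sum_insert h0B] at hw2
    have h2 : zf k q N σ 0 = S0 (tg k q) N σ := by simp [zf]
    have h3 : ∑ p ∈ BP N, w p * zf k q N σ p = ∑ p ∈ BP N, w p *
        ((((p : ℝ) ^ (-σ) : ℝ) : ℂ) * FS (tg k q) (N / p) σ) := by
      apply Finset.sum_congr rfl
      intro p hp
      unfold zf
      rw [if_neg (mem_BP.1 hp).2.1.ne_zero]
    rw [h2, h3] at hw2
    have h4 : S0 (tg k q) N σ + ∑ p ∈ BP N, w p / w 0 *
        ((((p : ℝ) ^ (-σ) : ℝ) : ℂ) * FS (tg k q) (N / p) σ) = (w 0)⁻¹ *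
        (w 0 * S0 (tg k q) N σ + ∑ p ∈ BP N, w p *
        ((((p : ℝ) ^ (-σ) : ℝ) : ℂ) * FS (tg k q) (N / p) σ)) := by
      rw [mul_add, ← mul_assoc, inv_mul_cancel₀ hw0, one_mul, Finset.mul_sum]
      congr 1
      apply Finset.sum_congr rfl
      intro p _
      rw [div_eq_mul_inv]
      ring
    rw [hw2, mul_zero] at h4
    exact h4

end Pool.Agent.P8H19.TP
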