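import Mathlib
import Pool.Agent.P8H19.TP.Main1

set_option autoImplicit false

/-!
# Averages of the sums
-/

namespace Pool.Agent.P8H19.TP

open Finset Filter Topology

/-- the real values at the primes -/
noncomputable def rv (k : ℕ) (p : ℕ) : ℝ := if p ∣ k then 0 else -1

/-- Liouville's function on the integers prime to `k` -/
noncomputable def lam (k : ℕ) (n : ℕ) : ℝ := (n.primeFactorsList.map (rv k)).prod

lemma lam_one (k : ℕ) : lam k 1 = 1 := by simp [lam]

lemma lam_prime (k : ℕ) {p : ℕ} (hp : p.Prime) : lam k p = rv k p := by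
  simp [lam, Nat.primeFactorsList_prime hp]

lemma lam_mul (k : ℕ) {a b : ℕ} (ha : a ≠ 0) (hb : b ≠ 0) :
    lam k (a * b) = lam k a * lam k b := by
  unfold lam
  rw [((Nat.perm_primeFactorsList_mul ha hb).map (rv k)).prod_eq, List.map_append,
    List.prod_append]

lemma cm_lam (k n : ℕ) : cm (fun p => ((rv k p : ℝ) : ℂ)) n = ((lam k n : ℝ) : ℂ) := by
  unfold cm lam
  induction n.primeFactorsList with
  | nil => simp
  | cons a l ih => rw [List.map_cons, List.prod_cons, List.map_cons, List.prod_cons, ih]; push_cast; rfl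

lemma abs_lam_le (k n : ℕ) : |lam k n| ≤ 1 := by
  have h := norm_cm_le_one (v := fun p => ((rv k p : ℝ) : ℂ)) (fun p _ => by
    rw [Complex.norm_real, Real.norm_eq_abs]
    unfold rv
    split_ifs <;> simp) n
  rw [cm_lam, Complex.norm_real, Real.norm_eq_abs] at h
  exact h

/-- real partial sums -/
noncomputable def FL (k N : ℕ) (σ : ℝ) : ℝ := ∑ n ∈ Icc 1 N, lam k n * (n : ℝ) ^ (-σ)

lemma FS_lam (k N : ℕ) (σ : ℝ) : FS (fun p => ((rv k p : ℝ) : ℂ)) N σ = (FL k N σ : ℂ) := by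
  unfold FS FL
  push_cast
  apply Finset.sum_congr rfl
  intro n _
  rw [cm_lam]

/-! ### The Dirichlet series -/

/-- indicator of the integers prime to `k` -/
noncomputable def ind (k n : ℕ) : ℝ := if n.Coprime k then 1 else 0

lemma ind_mul (k a b : ℕ) : ind k (a * b) = ind k a * ind k b := by
  unfold ind
  by_cases h1 : a.Coprime k
  · by_cases h2 : b.Coprime k
    · rw [if_pos h1, if_pos h2, if_pos (Nat.coprime_mul_iff_left.2 ⟨h1, h2⟩), one_mul]
    · rw [if_neg h2, if_neg (fun h => h2 (Nat.coprime_mul_iff_left.1 h).2), mul_zero]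
  · rw [if_neg h1, if_neg (fun h => h1 (Nat.coprime_mul_iff_left.1 h).1), zero_mul]

lemma ind_prime (k : ℕ) {p : ℕ} (hp : p.Prime) : ind k p = if p ∣ k then 0 else 1 := by
  unfold ind
  by_cases h : p ∣ k
  · rw [if_pos h, if_neg (fun h' => (Nat.Prime.coprime_iff_not_dvd hp).1 h' h)]
  · rw [if_neg h, if_pos ((Nat.Prime.coprime_iff_not_dvd hp).2 h)]

/-- the terms of the series of `lam` -/
noncomputable def fL (k : ℕ) (s : ℝ) (hs : 1 < s) : ℕ →*₀ ℝ where
  toFun n := lam k n * (n : ℝ) ^ (-s)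
  map_zero' := by
    rw [Nat.cast_zero, Real.zero_rpow (by linarith), mul_zero]
  map_one' := by simp [lam_one]
  map_mul' a b := by
    rcases eq_or_ne a 0 with rfl | ha
    · rw [Nat.zero_mul, Nat.cast_zero, Real.zero_rpow (by linarith)]; ring
    rcases eq_or_ne b 0 with rfl | hb
    · rw [Nat.mul_zero, Nat.cast_zero, Real.zero_rpow (by linarith)]; ring
    rw [lam_mul k ha hb, Nat.cast_mul, Real.mul_rpow (Nat.cast_nonneg a) (Nat.cast_nonneg b)]
    ring

/-- the terms of the series of the indicator -/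
noncomputable def fI (k : ℕ) (s : ℝ) (hs : 1 < s) : ℕ →*₀ ℝ where
  toFun n := ind k n * (n : ℝ) ^ (-s)
  map_zero' := by
    rw [Nat.cast_zero, Real.zero_rpow (by linarith), mul_zero]
  map_one' := by simp [ind]
  map_mul' a b := by
    rw [ind_mul, Nat.cast_mul, Real.mul_rpow (Nat.cast_nonneg a) (Nat.cast_nonneg b)]
    ring

lemma summable_base {s : ℝ} (hs : 1 < s) : Summable fun n : ℕ => (n : ℝ) ^ (-s) :=
  Real.summable_nat_rpow.2 (by linarith)

lemma fL_summable (k : ℕ) {s : ℝ} (hs : 1 < s) : Summable fun n => ‖fL k s hs n‖ := by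
  apply Summable.of_nonneg_of_le (fun _ => norm_nonneg _) _ (summable_base hs)
  intro n
  change ‖lam k n * (n : ℝ) ^ (-s)‖ ≤ _
  rw [norm_mul, Real.norm_eq_abs, Real.norm_eq_abs, abs_of_nonneg (by positivity : (0 : ℝ) ≤ (n : ℝ) ^ (-s))]
  calc |lam k n| * (n : ℝ) ^ (-s) ≤ 1 * (n : ℝ) ^ (-s) := by
        gcongr
        exact abs_lam_le k n
    _ = _ := one_mul _

lemma ind_nonneg (k n : ℕ) : 0 ≤ ind k n := by unfold ind; split_ifs <;> simp

lemma ind_le_one (k n : ℕ) : ind k n ≤ 1 := by unfold ind; split_ifs <;> simp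

lemma fI_summable (k : ℕ) {s : ℝ} (hs : 1 < s) : Summable fun n => ‖fI k s hs n‖ := by
  apply Summable.of_nonneg_of_le (fun _ => norm_nonneg _) _ (summable_base hs)
  intro n
  change ‖ind k n * (n : ℝ) ^ (-s)‖ ≤ _
  rw [norm_mul, Real.norm_eq_abs, Real.norm_eq_abs, abs_of_nonneg (by positivity : (0 : ℝ) ≤ (n : ℝ) ^ (-s)),
    abs_of_nonneg (ind_nonneg k n)]
  calc ind k n * (n : ℝ) ^ (-s) ≤ 1 * (n : ℝ) ^ (-s) := by
        gcongr
        exact ind_le_one k n
    _ = _ := one_mul _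

lemma series_identity (k : ℕ) (hk : k ≠ 0) {s : ℝ} (hs : 1 < s) :
    (∑' n, fL k s hs n) * (∑' n, fI k s hs n) = ∑' n, fI k (2 * s) (by linarith) n := by
  have h1 := EulerProduct.eulerProduct_completely_multiplicative_hasProd (fL_summable k hs)
  have h2 := EulerProduct.eulerProduct_completely_multiplicative_hasProd (fI_summable k hs)
  have h3 := EulerProduct.eulerProduct_completely_multiplicative_hasProd
    (fI_summable k (by linarith : 1 < 2 * s))
  have h4 := h1.mul h2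
  refine h4.unique ?_
  convert h3 using 1
  funext p
  obtain ⟨p, hp⟩ := p
  change (1 - lam k p * (p : ℝ) ^ (-s))⁻¹ * (1 - ind k p * (p : ℝ) ^ (-s))⁻¹ =
    (1 - ind k p * (p : ℝ) ^ (-(2 * s)))⁻¹
  rw [lam_prime k hp, ind_prime k hp]
  unfold rv
  by_cases h : p ∣ k
  · simp [h]
  · simp only [h, if_false]
    have h5 : (p : ℝ) ^ (-(2 * s)) = (p : ℝ) ^ (-s) * (p : ℝ) ^ (-s) := by
      rw [← Real.rpow_add (by exact_mod_cast hp.pos)]
      congr 1; ring
    rw [h5, ← mul_inv]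
    congr 1
    ring

lemma fI_lower (k : ℕ) (hk : k ≠ 0) {s : ℝ} (hs : 1 < s) (hs2 : s ≤ 2) :
    ((k : ℝ) ^ 2)⁻¹ * ∑' n : ℕ, 1 / (n : ℝ) ^ s ≤ ∑' n, fI k s hs n := by
  have hk1 : (1 : ℝ) ≤ k := by exact_mod_cast Nat.one_le_iff_ne_zero.2 hk
  have hsumm : Summable (fI k s hs) := (fI_summable k hs).of_norm
  -- the subfamily `m ↦ k m + 1`
  have hinj : Function.Injective (fun m : ℕ => k * m + 1) := by
    intro a b hab
    simp only [add_left_inj] at hab
    exact Nat.eq_of_mul_eq_mul_left (Nat.pos_of_ne_zero hk) hab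
  have h1 : ∑' m : ℕ, fI k s hs (k * m + 1) ≤ ∑' n, fI k s hs n := by
    apply Summable.tsum_le_tsum_of_inj _ hinj
    · intro c _
      change 0 ≤ ind k c * (c : ℝ) ^ (-s)
      exact mul_nonneg (ind_nonneg k c) (by positivity)
    · intro m; exact le_refl _
    · exact hsumm.comp_injective hinj
    · exact hsumm
  refine le_trans ?_ h1
  have hz : Summable fun n : ℕ => 1 / (n : ℝ) ^ s := Real.summable_one_div_nat_rpow.2 hs
  have h2 : ∑' n : ℕ, 1 / (n : ℝ) ^ s = ∑' n : ℕ, 1 / ((n + 1 : ℕ) : ℝ) ^ s := by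
    rw [hz.tsum_eq_zero_add]
    rw [Nat.cast_zero, Real.zero_rpow (by linarith), div_zero, zero_add]
  rw [h2, ← tsum_mul_left]
  apply Summable.tsum_le_tsum
  · intro m
    change ((k : ℝ) ^ 2)⁻¹ * (1 / ((m + 1 : ℕ) : ℝ) ^ s) ≤
      ind k (k * m + 1) * ((k * m + 1 : ℕ) : ℝ) ^ (-s)
    have h3 : ind k (k * m + 1) = 1 := by
      unfold ind
      rw [if_pos]
      simp
    rw [h3, one_mul, Real.rpow_neg (Nat.cast_nonneg _), one_div, ← mul_inv]
    apply inv_anti₀ (by positivity)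
    calc ((k * m + 1 : ℕ) : ℝ) ^ s ≤ ((k * (m + 1) : ℕ) : ℝ) ^ s := by
          apply Real.rpow_le_rpow (Nat.cast_nonneg _) _ (by linarith)
          have : k * m + 1 ≤ k * (m + 1) := by
            have := Nat.pos_of_ne_zero hk
            nlinarith
          exact_mod_cast this
      _ = (k : ℝ) ^ s * ((m + 1 : ℕ) : ℝ) ^ s := by
          rw [Nat.cast_mul, Real.mul_rpow (Nat.cast_nonneg _) (Nat.cast_nonneg _)]
      _ ≤ (k : ℝ) ^ 2 * ((m + 1 : ℕ) : ℝ) ^ s := by
          gcongr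
          rw [← Real.rpow_natCast]
          exact Real.rpow_le_rpow_of_exponent_le hk1 (by exact_mod_cast hs2)
  · apply Summable.mul_left
    exact (summable_nat_add_iff 1).2 hz
  · exact hsumm.comp_injective hinj

/-- the series of `lam` is `O(s - 1)` -/
lemma series_small (k : ℕ) (hk : k ≠ 0) :
    ∃ C : ℝ, 0 ≤ C ∧ ∀ᶠ s in 𝓝[>] (1 : ℝ), ∀ hs : 1 < s, ∑' n, fL k s hs n ≤ C * (s - 1) := by
  have hk0 : (0 : ℝ) < k := by exact_mod_cast Nat.pos_of_ne_zero hk
  set Z : ℝ := ∑' n : ℕ, (n : ℝ) ^ (-2 : ℝ) with hZ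
  have hZ0 : 0 ≤ Z := tsum_nonneg fun n => by positivity
  refine ⟨2 * k ^ 2 * Z, by positivity, ?_⟩
  have h1 := tendsto_sub_mul_tsum_nat_rpow
  have h2 : ∀ᶠ s in 𝓝[>] (1 : ℝ), 1 / 2 < (s - 1) * ∑' n : ℕ, 1 / (n : ℝ) ^ s :=
    h1.eventually (lt_mem_nhds (by norm_num))
  have h3 : ∀ᶠ s in 𝓝[>] (1 : ℝ), s ≤ 2 := by
    apply nhdsWithin_le_nhds
    filter_upwards [gt_mem_nhds (by norm_num : (1 : ℝ) < 2)] with s hs using hs.le
  filter_upwards [h2, h3] with s h4 h5 hs
  have h6 := fI_lower k hk hs h5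
  have h7 := series_identity k hk hs
  have h8 : ∑' n, fI k (2 * s) (by linarith) n ≤ Z := by
    rw [hZ]
    apply Summable.tsum_le_tsum
    · intro n
      change ind k n * (n : ℝ) ^ (-(2 * s)) ≤ (n : ℝ) ^ (-2 : ℝ)
      rcases Nat.eq_zero_or_pos n with rfl | hn
      · rw [Nat.cast_zero, Real.zero_rpow (by linarith), mul_zero]
        positivity
      · calc ind k n * (n : ℝ) ^ (-(2 * s)) ≤ 1 * (n : ℝ) ^ (-(2 * s)) := by
              gcongr
              exact ind_le_one k n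
          _ ≤ (n : ℝ) ^ (-2 : ℝ) := by
              rw [one_mul]
              apply Real.rpow_le_rpow_of_exponent_le
              · exact_mod_cast hn
              · linarith
    · exact (fI_summable k (by linarith : 1 < 2 * s)).of_norm
    · exact summable_base (by norm_num)
  set ζ : ℝ := ∑' n : ℕ, 1 / (n : ℝ) ^ s with hζ
  set D : ℝ := ∑' n, fL k s hs n with hD
  set I1 : ℝ := ∑' n, fI k s hs n with hI1
  have hs1 : 0 < s - 1 := by linarith
  have hζ0 : 0 < ζ := by
    by_contra h9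
    push Not at h9
    nlinarith
  have hI0 : 0 < I1 := lt_of_lt_of_le (by positivity) h6
  -- D * I1 ≤ Z
  by_cases hDn : D ≤ 0
  · have : 0 ≤ 2 * k ^ 2 * Z * (s - 1) := by positivity
    linarith
  · push Not at hDn
    have h9 : D * I1 ≤ Z := by rw [h7]; exact h8
    have h10 : D * (((k : ℝ) ^ 2)⁻¹ * ζ) ≤ Z := (mul_le_mul_of_nonneg_left h6 hDn.le).trans h9
    have h11 : D * ((s - 1) * ζ) ≤ Z * k ^ 2 * (s - 1) := by
      have h12 : D * ζ ≤ Z * (k : ℝ) ^ 2 := by
        have h13 : D * (((k : ℝ) ^ 2)⁻¹ * ζ) = D * ζ / (k : ℝ) ^ 2 := by ring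
        rw [h13, div_le_iff₀ (by positivity)] at h10
        exact h10
      calc D * ((s - 1) * ζ) = D * ζ * (s - 1) := by ring
        _ ≤ Z * (k : ℝ) ^ 2 * (s - 1) := by gcongr
    nlinarith

end Pool.Agent.P8H19.TP
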