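import Mathlib
import Pool.Agent.P8H19.TP.Avg

set_option autoImplicit false

/-!
# The sums are small on average
-/

namespace Pool.Agent.P8H19.TP

open Finset Filter Topology

lemma abel (a b : ℕ → ℝ) (N : ℕ) :
    ∑ n ∈ Icc 1 N, a n * b n = (∑ m ∈ Icc 1 N, a m) * b (N + 1) +
      ∑ n ∈ Icc 1 N, (∑ m ∈ Icc 1 n, a m) * (b n - b (n + 1)) := by
  induction N with
  | zero => simp
  | succ N ih =>
    rw [Finset.sum_Icc_succ_top (by omega), Finset.sum_Icc_succ_top (by omega) (f := a),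
      Finset.sum_Icc_succ_top (by omega) (f := fun n => (∑ m ∈ Icc 1 n, a m) * (b n - b (n + 1))),
      ih, Finset.sum_Icc_succ_top (by omega) (f := a)]
    ring

lemma FL_one (k N : ℕ) : FL k N 1 = ∑ n ∈ Icc 1 N, lam k n * (n : ℝ)⁻¹ := by
  unfold FL
  apply Finset.sum_congr rfl
  intro n _
  rw [Real.rpow_neg_one]

lemma sum_range_Icc (f : ℕ → ℝ) (h0 : f 0 = 0) (N : ℕ) :
    ∑ n ∈ range (N + 1), f n = ∑ n ∈ Icc 1 N, f n := by
  rw [Finset.sum_range_succ']
  rw [h0, add_zero]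
  induction N with
  | zero => simp
  | succ N ih => rw [Finset.sum_range_succ, ih, Finset.sum_Icc_succ_top (by omega)]

lemma FL_tendsto (k : ℕ) {s : ℝ} (hs : 1 < s) :
    Tendsto (fun N => FL k N s) atTop (𝓝 (∑' n, fL k s hs n)) := by
  have h1 := ((fL_summable k hs).of_norm).hasSum.tendsto_sum_nat
  have h2 := h1.comp (tendsto_add_atTop_nat 1)
  refine h2.congr ?_
  intro N
  change ∑ n ∈ range (N + 1), fL k s hs n = _
  rw [sum_range_Icc _ (by rw [map_zero])]
  rfl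

/-- first consequence of nonnegativity -/
lemma weighted_bound (k : ℕ) (hk : k ≠ 0) (M : ℕ) (hnn : ∀ N, M ≤ N → 0 ≤ FL k N 1) :
    ∃ C : ℝ, ∀ N, M ≤ N →
      ∑ n ∈ Icc 1 N, FL k n 1 * (Real.log ((n + 1 : ℕ) : ℝ) - Real.log n) ≤ C := by
  obtain ⟨C, hC0, hC⟩ := series_small k hk
  refine ⟨C, fun N' hN' => ?_⟩
  -- bound for `s > 1`
  have h1 : ∀ᶠ s in 𝓝[>] (1 : ℝ), ∑ n ∈ Icc 1 N', FL k n 1 *
      (((n : ℝ) ^ (-(s - 1)) - ((n + 1 : ℕ) : ℝ) ^ (-(s - 1))) / (s - 1)) ≤ C := by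
    filter_upwards [hC, self_mem_nhdsWithin] with s hs1 hs2
    have hs : 1 < s := hs2
    have hδ : 0 < s - 1 := by linarith
    have h2 := hs1 hs
    have hb : ∀ n : ℕ, 1 ≤ n → 0 ≤ (n : ℝ) ^ (-(s - 1)) - ((n + 1 : ℕ) : ℝ) ^ (-(s - 1)) := by
      intro n hn
      have : ((n + 1 : ℕ) : ℝ) ^ (-(s - 1)) ≤ (n : ℝ) ^ (-(s - 1)) := by
        apply Real.rpow_le_rpow_of_nonpos
        · exact_mod_cast hn
        · exact_mod_cast Nat.le_succ n
        · linarith
      linarith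
    have h3 : ∀ N, N' ≤ N → ∑ n ∈ Icc 1 N', FL k n 1 *
        ((n : ℝ) ^ (-(s - 1)) - ((n + 1 : ℕ) : ℝ) ^ (-(s - 1))) ≤ FL k N s := by
      intro N hN
      have h4 : FL k N s = FL k N 1 * ((N + 1 : ℕ) : ℝ) ^ (-(s - 1)) + ∑ n ∈ Icc 1 N, FL k n 1 *
          ((n : ℝ) ^ (-(s - 1)) - ((n + 1 : ℕ) : ℝ) ^ (-(s - 1))) := by
        have h5 := abel (fun n => lam k n * (n : ℝ)⁻¹) (fun n => (n : ℝ) ^ (-(s - 1))) N
        simp only [← FL_one] at h5
        rw [← h5]
        unfold FL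
        apply Finset.sum_congr rfl
        intro n hn
        have hn0 : (0 : ℝ) < n := by exact_mod_cast (mem_Icc.1 hn).1
        rw [mul_assoc, ← Real.rpow_neg_one, ← Real.rpow_add hn0]
        congr 2
        ring
      rw [h4]
      have h5 : ∑ n ∈ Icc 1 N', FL k n 1 *
          ((n : ℝ) ^ (-(s - 1)) - ((n + 1 : ℕ) : ℝ) ^ (-(s - 1))) ≤ ∑ n ∈ Icc 1 N, FL k n 1 *
          ((n : ℝ) ^ (-(s - 1)) - ((n + 1 : ℕ) : ℝ) ^ (-(s - 1))) := by
        apply Finset.sum_le_sum_of_subset_of_nonneg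
        · exact Finset.Icc_subset_Icc_right hN
        · intro n hn hn'
          rw [mem_Icc] at hn hn'
          apply mul_nonneg
          · exact hnn n (by omega)
          · exact hb n hn.1
      have h6 : 0 ≤ FL k N 1 * ((N + 1 : ℕ) : ℝ) ^ (-(s - 1)) :=
        mul_nonneg (hnn N (by omega)) (by positivity)
      linarith
    have h7 : ∑ n ∈ Icc 1 N', FL k n 1 *
        ((n : ℝ) ^ (-(s - 1)) - ((n + 1 : ℕ) : ℝ) ^ (-(s - 1))) ≤ ∑' n, fL k s hs n := by
      apply ge_of_tendsto (FL_tendsto k hs)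
      filter_upwards [eventually_ge_atTop N'] with N hN using h3 N hN
    have h8 : ∑ n ∈ Icc 1 N', FL k n 1 *
        (((n : ℝ) ^ (-(s - 1)) - ((n + 1 : ℕ) : ℝ) ^ (-(s - 1))) / (s - 1)) =
        (∑ n ∈ Icc 1 N', FL k n 1 *
        ((n : ℝ) ^ (-(s - 1)) - ((n + 1 : ℕ) : ℝ) ^ (-(s - 1)))) / (s - 1) := by
      rw [Finset.sum_div]
      apply Finset.sum_congr rfl
      intro n _
      rw [mul_div_assoc]
    rw [h8, div_le_iff₀ hδ]
    exact h7.trans h2
  have hlim : Tendsto (fun s : ℝ => ∑ n ∈ Icc 1 N', FL k n 1 *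
      (((n : ℝ) ^ (-(s - 1)) - ((n + 1 : ℕ) : ℝ) ^ (-(s - 1))) / (s - 1))) (𝓝[>] 1)
      (𝓝 (∑ n ∈ Icc 1 N', FL k n 1 * (Real.log ((n + 1 : ℕ) : ℝ) - Real.log n))) := by
    apply tendsto_finsetSum
    intro n hn
    have hn0 : (0 : ℝ) < n := by exact_mod_cast (mem_Icc.1 hn).1
    apply Tendsto.const_mul
    have hd : ∀ x : ℝ, 0 < x → HasDerivAt (fun s : ℝ => x ^ (-(s - 1))) (-Real.log x) 1 := by
      intro x hx
      have h9 : HasDerivAt (fun s : ℝ => -(s - 1)) (-1) 1 := by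
        exact ((hasDerivAt_id (1 : ℝ)).sub_const 1).neg
      have h10 := h9.const_rpow hx
      simpa using h10
    have h11 := (hd n hn0).sub (hd ((n + 1 : ℕ) : ℝ) (by positivity))
    have h12 := h11.tendsto_slope.mono_left
      (nhdsWithin_mono (1 : ℝ) (fun (x : ℝ) (hx : (1 : ℝ) < x) => ne_of_gt hx) :
        𝓝[>] (1 : ℝ) ≤ 𝓝[≠] (1 : ℝ))
    have h13 : -Real.log n - -Real.log ((n + 1 : ℕ) : ℝ) = Real.log ((n + 1 : ℕ) : ℝ) - Real.log n := by
      ring
    rw [h13] at h12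
    refine h12.congr ?_
    intro s
    rw [slope_def_field]
    simp
  exact le_of_tendsto hlim h1

/-- absolute sums -/
lemma abs_bound (k : ℕ) (hk : k ≠ 0) (M : ℕ) (hnn : ∀ N, M ≤ N → 0 ≤ FL k N 1) :
    ∃ C : ℝ, ∀ N, ∑ n ∈ Icc 1 N, |FL k n 1| / n ≤ C := by
  obtain ⟨C, hC⟩ := weighted_bound k hk M hnn
  set g : ℕ → ℝ := fun n => FL k n 1 * (Real.log ((n + 1 : ℕ) : ℝ) - Real.log n) with hg
  have hlog : ∀ n : ℕ, 1 ≤ n → 1 / (2 * n : ℝ) ≤ Real.log ((n + 1 : ℕ) : ℝ) - Real.log n := by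
    intro n hn
    have hn0 : (0 : ℝ) < n := by exact_mod_cast hn
    rw [← Real.log_div (by positivity) (by positivity)]
    have h1 := Real.one_sub_inv_le_log_of_pos (x := ((n + 1 : ℕ) : ℝ) / n) (by positivity)
    refine le_trans ?_ h1
    rw [inv_div]
    push_cast
    rw [div_le_iff₀ (by positivity)]
    have h2 : (1 - (n : ℝ) / (n + 1)) * (2 * n) = 2 * n / (n + 1) := by field_simp; ring
    rw [h2, le_div_iff₀ (by positivity)]
    have : (1 : ℝ) ≤ n := by exact_mod_cast hn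
    linarith
  refine ⟨2 * (C + ∑ n ∈ Icc 1 M, |g n|) + ∑ n ∈ Icc 1 M, |FL k n 1| / n, fun N => ?_⟩
  by_cases hNM : N ≤ M
  · have h1 : ∑ n ∈ Icc 1 N, |FL k n 1| / n ≤ ∑ n ∈ Icc 1 M, |FL k n 1| / n := by
      apply Finset.sum_le_sum_of_subset_of_nonneg
      · exact Finset.Icc_subset_Icc_right hNM
      · intro n _ _; positivity
    have h2 : 0 ≤ C + ∑ n ∈ Icc 1 M, |g n| := by
      have h3 := hC M (le_refl M)
      have h4 : -∑ n ∈ Icc 1 M, |g n| ≤ ∑ n ∈ Icc 1 M, g n := by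
        rw [← Finset.sum_neg_distrib]
        apply Finset.sum_le_sum
        intro n _
        exact neg_abs_le _
      linarith
    linarith
  · push Not at hNM
    have hsplit : ∀ f : ℕ → ℝ, ∑ n ∈ Icc 1 N, f n = ∑ n ∈ Icc 1 M, f n + ∑ n ∈ Ioc M N, f n := by
      intro f
      have : Icc 1 N = Icc 1 M ∪ Ioc M N := by
        ext n; simp only [mem_Icc, mem_union, mem_Ioc]; omega
      rw [this, Finset.sum_union]
      rw [Finset.disjoint_left]
      intro n; simp only [mem_Icc, mem_Ioc]; omega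
    have h1 := hC N hNM.le
    rw [hsplit] at h1
    have h4 : -∑ n ∈ Icc 1 M, |g n| ≤ ∑ n ∈ Icc 1 M, g n := by
      rw [← Finset.sum_neg_distrib]
      apply Finset.sum_le_sum
      intro n _
      exact neg_abs_le _
    have h5 : ∑ n ∈ Ioc M N, |FL k n 1| / n ≤ 2 * ∑ n ∈ Ioc M N, g n := by
      rw [Finset.mul_sum]
      apply Finset.sum_le_sum
      intro n hn
      rw [mem_Ioc] at hn
      have hn1 : 1 ≤ n := by omega
      have hn0 : (0 : ℝ) < n := by exact_mod_cast hn1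
      have h6 := hnn n hn.1.le
      rw [abs_of_nonneg h6, hg]
      dsimp only
      have h7 := mul_le_mul_of_nonneg_left (hlog n hn1) h6
      have h8 : FL k n 1 / n = 2 * (FL k n 1 * (1 / (2 * n))) := by field_simp
      rw [h8]
      linarith
    rw [hsplit]
    have h1' : ∑ n ∈ Icc 1 M, g n + ∑ n ∈ Ioc M N, g n ≤ C := h1
    linarith

/-- floors -/
lemma sum_div_le (q : ℕ) (hq : 0 < q) (h : ℕ → ℝ) (h0 : h 0 = 0) (hnn : ∀ n, 0 ≤ h n) (X : ℕ) :
    ∑ n ∈ Icc 1 X, h (n / q) / n ≤ ∑ m ∈ Icc 1 X, h m / m := by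
  have h1 : ∑ n ∈ Icc 1 X, h (n / q) / n =
      ∑ m ∈ range (X + 1), ∑ n ∈ (Icc 1 X).filter (fun n => n / q = m), h (n / q) / n := by
    rw [Finset.sum_fiberwise_of_maps_to]
    intro n hn
    rw [mem_range]
    have := (mem_Icc.1 hn).2
    have := Nat.div_le_self n q
    omega
  rw [h1]
  have h2 : ∑ m ∈ range (X + 1), h m / m = ∑ m ∈ Icc 1 X, h m / m :=
    sum_range_Icc (fun m => h m / m) (by simp [h0]) X
  rw [← h2]
  apply Finset.sum_le_sum
  intro m _
  have h3 : ∑ n ∈ (Icc 1 X).filter (fun n => n / q = m), h (n / q) / n =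
      ∑ n ∈ (Icc 1 X).filter (fun n => n / q = m), h m / n := by
    apply Finset.sum_congr rfl
    intro n hn
    rw [(mem_filter.1 hn).2]
  rw [h3]
  rcases Nat.eq_zero_or_pos m with rfl | hm
  · simp [h0]
  · have hm0 : (0 : ℝ) < m := by exact_mod_cast hm
    have hq0 : (0 : ℝ) < q := by exact_mod_cast hq
    calc ∑ n ∈ (Icc 1 X).filter (fun n => n / q = m), h m / n
        ≤ ∑ n ∈ (Icc 1 X).filter (fun n => n / q = m), h m / (m * q) := by
          apply Finset.sum_le_sum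
          intro n hn
          have h4 := (mem_filter.1 hn).2
          have h5 : m * q ≤ n := by rw [← h4]; exact Nat.div_mul_le_self n q
          have h6 : (m : ℝ) * q ≤ n := by exact_mod_cast h5
          exact div_le_div_of_nonneg_left (hnn m) (by positivity) h6
      _ ≤ q * (h m / (m * q)) := by
          rw [Finset.sum_const, nsmul_eq_mul]
          have h7 : 0 ≤ h m / (m * q) := div_nonneg (hnn m) (by positivity)
          apply mul_le_mul_of_nonneg_right _ h7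
          have h8 : (Icc 1 X).filter (fun n => n / q = m) ⊆ Ico (m * q) (m * q + q) := by
            intro n hn
            rw [mem_filter] at hn
            rw [mem_Ico]
            have h9 := Nat.div_add_mod n q
            have h10 := Nat.mod_lt n hq
            rw [hn.2] at h9
            rw [Nat.mul_comm m q]
            omega
          have h11 := Finset.card_le_card h8
          rw [Nat.card_Ico] at h11
          have : m * q + q - m * q = q := by omega
          rw [this] at h11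
          exact_mod_cast h11
      _ = h m / m := by field_simp

end Pool.Agent.P8H19.TP
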