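import Mathlib
import Pool.Agent.P8H19.TP.Avg2

set_option autoImplicit false

/-!
# Every partial sum sequence has zeros to the right of one
-/

namespace Pool.Agent.P8H19.TP

open Finset Filter Topology

/-- splitting off the multiples of a prime -/
lemma FS_multiples (v : ℕ → ℂ) {q : ℕ} (hq : q.Prime) (N : ℕ) :
    FS v N 1 = ∑ n ∈ (Icc 1 N).filter (fun n => ¬ q ∣ n), cm v n * ((n : ℝ)⁻¹ : ℝ) +
      v q / q * FS v (N / q) 1 := by
  have hq0 : 0 < q := hq.pos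
  have h1 : FS v N 1 = ∑ n ∈ Icc 1 N, cm v n * ((n : ℝ)⁻¹ : ℝ) := by
    unfold FS
    apply Finset.sum_congr rfl
    intro n _
    rw [Real.rpow_neg_one]
  rw [h1, ← Finset.sum_filter_add_sum_filter_not (Icc 1 N) (fun n => q ∣ n), add_comm]
  congr 1
  have h4 : (Icc 1 N).filter (fun n => q ∣ n) = (Icc 1 (N / q)).image (fun m => q * m) := by
    ext n
    simp only [mem_filter, mem_image, mem_Icc]
    constructor
    · rintro ⟨⟨h5, h6⟩, m, rfl⟩
      refine ⟨m, ⟨?_, ?_⟩, rfl⟩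
      · rcases Nat.eq_zero_or_pos m with rfl | h; · simp at h5
        exact h
      · rw [Nat.le_div_iff_mul_le hq0]; linarith [Nat.mul_comm m q]
    · rintro ⟨m, ⟨h5, h6⟩, rfl⟩
      rw [Nat.le_div_iff_mul_le hq0] at h6
      refine ⟨⟨?_, by linarith [Nat.mul_comm m q]⟩, Dvd.intro m rfl⟩
      nlinarith
  rw [h4, Finset.sum_image (fun a _ b _ hab => Nat.eq_of_mul_eq_mul_left hq0 hab)]
  unfold FS
  rw [Finset.mul_sum]
  apply Finset.sum_congr rfl
  intro m hm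
  have hm' := mem_Icc.1 hm
  rw [cm_mul v hq0.ne' (by omega), cm_prime v hq, Real.rpow_neg_one]
  push_cast
  have hq0' : (q : ℂ) ≠ 0 := by exact_mod_cast hq.ne_zero
  have hm0' : (m : ℂ) ≠ 0 := by exact_mod_cast (by omega : m ≠ 0)
  field_simp

lemma FS_tg_bound {k q : ℕ} (hq : q.Prime) (N : ℕ) :
    ‖FS (tg k q) N 1‖ ≤ |FL k N 1| + (q : ℝ)⁻¹ * |FL k (N / q) 1| +
      (q : ℝ)⁻¹ * ‖FS (tg k q) (N / q) 1‖ := by
  have h1 := FS_multiples (tg k q) hq N
  have h2 := FS_multiples (fun p => ((rv k p : ℝ) : ℂ)) hq N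
  have h3 : ∑ n ∈ (Icc 1 N).filter (fun n => ¬ q ∣ n), cm (tg k q) n * ((n : ℝ)⁻¹ : ℝ) =
      ∑ n ∈ (Icc 1 N).filter (fun n => ¬ q ∣ n),
        cm (fun p => ((rv k p : ℝ) : ℂ)) n * ((n : ℝ)⁻¹ : ℝ) := by
    apply Finset.sum_congr rfl
    intro n hn
    congr 1
    apply cm_congr
    intro p _ hpn
    unfold tg rv
    have hne : p ≠ q := by
      rintro rfl
      exact (mem_filter.1 hn).2 hpn
    by_cases hpk : p ∣ k
    · simp [hpk]
    · simp [hpk, hne]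
  rw [FS_lam, FS_lam] at h2
  rw [h3] at h1
  have h4 : FS (tg k q) N 1 = ((FL k N 1 : ℝ) : ℂ) - ((rv k q : ℝ) : ℂ) / q * ((FL k (N / q) 1 : ℝ) : ℂ) +
      tg k q q / q * FS (tg k q) (N / q) 1 := by
    rw [h1, h2]; ring
  have hq0 : (0 : ℝ) < q := by exact_mod_cast hq.pos
  have hrv : |rv k q| ≤ 1 := by unfold rv; split_ifs <;> simp
  calc ‖FS (tg k q) N 1‖ = ‖((FL k N 1 : ℝ) : ℂ) - ((rv k q : ℝ) : ℂ) / q * ((FL k (N / q) 1 : ℝ) : ℂ) +
      tg k q q / q * FS (tg k q) (N / q) 1‖ := by rw [← h4]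
    _ ≤ ‖((FL k N 1 : ℝ) : ℂ) - ((rv k q : ℝ) : ℂ) / q * ((FL k (N / q) 1 : ℝ) : ℂ)‖ +
      ‖tg k q q / q * FS (tg k q) (N / q) 1‖ := norm_add_le _ _
    _ ≤ (‖((FL k N 1 : ℝ) : ℂ)‖ + ‖((rv k q : ℝ) : ℂ) / q * ((FL k (N / q) 1 : ℝ) : ℂ)‖) +
      ‖tg k q q / q * FS (tg k q) (N / q) 1‖ := by
        gcongr
        exact norm_sub_le _ _
    _ ≤ (|FL k N 1| + (q : ℝ)⁻¹ * |FL k (N / q) 1|) + (q : ℝ)⁻¹ * ‖FS (tg k q) (N / q) 1‖ := by
        have e1 : ‖((FL k N 1 : ℝ) : ℂ)‖ = |FL k N 1| := by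
          rw [Complex.norm_real, Real.norm_eq_abs]
        have e2 : ‖((rv k q : ℝ) : ℂ) / q * ((FL k (N / q) 1 : ℝ) : ℂ)‖ ≤
            (q : ℝ)⁻¹ * |FL k (N / q) 1| := by
          rw [norm_mul, norm_div, Complex.norm_real, Complex.norm_real, Real.norm_eq_abs,
            Real.norm_eq_abs, Complex.norm_natCast]
          gcongr
          rw [div_eq_mul_inv]
          calc |rv k q| * (q : ℝ)⁻¹ ≤ 1 * (q : ℝ)⁻¹ := by gcongr
            _ = _ := one_mul _
        have e3 : ‖tg k q q / q * FS (tg k q) (N / q) 1‖ ≤ (q : ℝ)⁻¹ * ‖FS (tg k q) (N / q) 1‖ := by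
          rw [norm_mul, norm_div, Complex.norm_natCast]
          gcongr
          rw [div_eq_mul_inv]
          calc ‖tg k q q‖ * (q : ℝ)⁻¹ ≤ 1 * (q : ℝ)⁻¹ := by
                gcongr
                exact norm_tg_le k q q
            _ = _ := one_mul _
        rw [e1]
        linarith

/-- the sums of the test function are small on average -/
lemma tg_abs_bound {k q : ℕ} (hk : k ≠ 0) (hq : q.Prime) (M : ℕ)
    (hnn : ∀ N, M ≤ N → 0 ≤ FL k N 1) :
    ∃ C : ℝ, ∀ N, ∑ n ∈ Icc 1 N, ‖FS (tg k q) n 1‖ / n ≤ C := by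
  obtain ⟨C, hC⟩ := abs_bound k hk M hnn
  refine ⟨4 * C, fun N => ?_⟩
  have hq2 : (2 : ℝ) ≤ q := by exact_mod_cast hq.two_le
  have hqi : (q : ℝ)⁻¹ ≤ 1 / 2 := by
    rw [one_div]
    exact inv_anti₀ (by norm_num) hq2
  have hqi0 : 0 ≤ (q : ℝ)⁻¹ := by positivity
  set A : ℝ := ∑ n ∈ Icc 1 N, ‖FS (tg k q) n 1‖ / n with hA
  set B : ℝ := ∑ n ∈ Icc 1 N, |FL k n 1| / n with hB
  have hB0 : 0 ≤ B := Finset.sum_nonneg fun n _ => by positivity
  have hA0 : 0 ≤ A := Finset.sum_nonneg fun n _ => by positivity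
  have h1 : A ≤ B + (q : ℝ)⁻¹ * ∑ n ∈ Icc 1 N, |FL k (n / q) 1| / n +
      (q : ℝ)⁻¹ * ∑ n ∈ Icc 1 N, ‖FS (tg k q) (n / q) 1‖ / n := by
    rw [hA, hB, Finset.mul_sum, Finset.mul_sum, ← Finset.sum_add_distrib, ← Finset.sum_add_distrib]
    apply Finset.sum_le_sum
    intro n hn
    have hn0 : (0 : ℝ) < n := by exact_mod_cast (mem_Icc.1 hn).1
    rw [div_le_iff₀ hn0]
    have h2 := FS_tg_bound (k := k) hq n
    calc ‖FS (tg k q) n 1‖ ≤ _ := h2
      _ = _ := by field_simp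
  have h2 := sum_div_le q hq.pos (fun n => |FL k n 1|) (by simp [FL]) (fun n => abs_nonneg _) N
  have h3 := sum_div_le q hq.pos (fun n => ‖FS (tg k q) n 1‖) (by simp [FS])
    (fun n => norm_nonneg _) N
  have h2' : ∑ n ∈ Icc 1 N, |FL k (n / q) 1| / n ≤ B := h2
  have h3' : ∑ n ∈ Icc 1 N, ‖FS (tg k q) (n / q) 1‖ / n ≤ A := h3
  have h4 : (q : ℝ)⁻¹ * ∑ n ∈ Icc 1 N, |FL k (n / q) 1| / n ≤ 1 / 2 * B := by
    calc (q : ℝ)⁻¹ * ∑ n ∈ Icc 1 N, |FL k (n / q) 1| / n ≤ (q : ℝ)⁻¹ * B := by gcongr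
      _ ≤ 1 / 2 * B := by gcongr
  have h5 : (q : ℝ)⁻¹ * ∑ n ∈ Icc 1 N, ‖FS (tg k q) (n / q) 1‖ / n ≤ 1 / 2 * A := by
    calc (q : ℝ)⁻¹ * ∑ n ∈ Icc 1 N, ‖FS (tg k q) (n / q) 1‖ / n ≤ (q : ℝ)⁻¹ * A := by gcongr
      _ ≤ 1 / 2 * A := by gcongr
  have h6 := hC N
  linarith

lemma loglog_step {n : ℕ} (hn : 2 ≤ n) :
    Real.log (Real.log ((n + 1 : ℕ) : ℝ)) - Real.log (Real.log n) ≤ 1 / (n * Real.log n) := by
  have hn0 : (0 : ℝ) < n := by positivity
  have hl : 0 < Real.log n := Real.log_pos (by exact_mod_cast (by omega : 1 < n))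
  have hl1 : 0 < Real.log ((n + 1 : ℕ) : ℝ) :=
    Real.log_pos (by exact_mod_cast (by omega : 1 < n + 1))
  rw [← Real.log_div hl1.ne' hl.ne']
  have h1 := Real.log_le_sub_one_of_pos (x := Real.log ((n + 1 : ℕ) : ℝ) / Real.log n)
    (by positivity)
  refine h1.trans ?_
  have h2 : Real.log ((n + 1 : ℕ) : ℝ) / Real.log n - 1 =
      (Real.log ((n + 1 : ℕ) : ℝ) - Real.log n) / Real.log n := by field_simp
  rw [h2, ← Real.log_div (by positivity) (by positivity), div_le_div_iff₀ hl (by positivity)]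
  have h3 := Real.log_le_sub_one_of_pos (x := ((n + 1 : ℕ) : ℝ) / n) (by positivity)
  have h4 : ((n + 1 : ℕ) : ℝ) / n - 1 = 1 / n := by push_cast; field_simp; ring
  rw [h4] at h3
  calc Real.log (((n + 1 : ℕ) : ℝ) / n) * (n * Real.log n) ≤ 1 / n * (n * Real.log n) := by gcongr
    _ = 1 * Real.log n := by field_simp

lemma exists_small {k q : ℕ} (hk : k ≠ 0) (hq : q.Prime) (M : ℕ)
    (hnn : ∀ N, M ≤ N → 0 ≤ FL k N 1) (ε : ℝ) (hε : 0 < ε) (X : ℕ) :
    ∃ N : ℕ, X ≤ N ∧ ‖FS (tg k q) N 1‖ < ε / Real.log N := by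
  by_contra hcon
  push Not at hcon
  obtain ⟨C, hC⟩ := tg_abs_bound hk hq M hnn
  set X' := X + 2 with hX'
  have h1 : ∀ Y : ℕ, ε * (Real.log (Real.log ((X' + Y : ℕ) : ℝ)) - Real.log (Real.log X')) ≤
      ∑ n ∈ Ico X' (X' + Y), ‖FS (tg k q) n 1‖ / n := by
    intro Y
    induction Y with
    | zero => simp
    | succ Y ih =>
      rw [← Nat.add_assoc, Finset.sum_Ico_succ_top (by omega)]
      have h2 := hcon (X' + Y) (by omega)
      have h3 := loglog_step (n := X' + Y) (by omega)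
      have hn0 : (0 : ℝ) < (X' + Y : ℕ) := by exact_mod_cast (by omega : 0 < X' + Y)
      have hl : 0 < Real.log ((X' + Y : ℕ) : ℝ) :=
        Real.log_pos (by exact_mod_cast (by omega : 1 < X' + Y))
      have h4 : ε * (1 / (((X' + Y : ℕ) : ℝ) * Real.log ((X' + Y : ℕ) : ℝ))) ≤
          ‖FS (tg k q) (X' + Y) 1‖ / ((X' + Y : ℕ) : ℝ) := by
        rw [le_div_iff₀ hn0]
        calc ε * (1 / (((X' + Y : ℕ) : ℝ) * Real.log ((X' + Y : ℕ) : ℝ))) * ((X' + Y : ℕ) : ℝ)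
            = ε / Real.log ((X' + Y : ℕ) : ℝ) := by field_simp
          _ ≤ _ := h2
      have h5 := mul_le_mul_of_nonneg_left h3 hε.le
      have h6 : ε * (Real.log (Real.log ((X' + Y + 1 : ℕ) : ℝ)) - Real.log (Real.log X')) =
          ε * (Real.log (Real.log ((X' + Y : ℕ) : ℝ)) - Real.log (Real.log X')) +
          ε * (Real.log (Real.log ((X' + Y + 1 : ℕ) : ℝ)) -
            Real.log (Real.log ((X' + Y : ℕ) : ℝ))) := by ring
      rw [h6]
      linarith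
  have h2 : ∀ Y : ℕ, ε * (Real.log (Real.log ((X' + Y : ℕ) : ℝ)) - Real.log (Real.log X')) ≤ C := by
    intro Y
    refine (h1 Y).trans (le_trans ?_ (hC (X' + Y)))
    apply Finset.sum_le_sum_of_subset_of_nonneg
    · intro n hn
      rw [mem_Ico] at hn
      rw [mem_Icc]
      omega
    · intro n _ _; positivity
  have h3 : Tendsto (fun Y : ℕ => Real.log (Real.log ((X' + Y : ℕ) : ℝ))) atTop atTop := by
    apply Real.tendsto_log_atTop.comp
    apply Real.tendsto_log_atTop.comp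
    apply tendsto_natCast_atTop_atTop.comp
    exact tendsto_add_atTop_nat X' |>.congr (fun n => by rw [Nat.add_comm])
  obtain ⟨Y, hY⟩ := (h3.eventually (eventually_gt_atTop (C / ε + Real.log (Real.log X')))).exists
  have h4 := h2 Y
  have h5 : C / ε < Real.log (Real.log ((X' + Y : ℕ) : ℝ)) - Real.log (Real.log X') := by linarith
  rw [div_lt_iff₀ hε] at h5
  linarith

/-- nonnegativity at `σ = 1` from non-vanishing to the right of `1` -/
lemma nonneg_of_nonvanishing (k N : ℕ) (hN : 1 ≤ N) (h : ∀ σ : ℝ, 1 < σ → FL k N σ ≠ 0) :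
    0 ≤ FL k N 1 := by
  have hcont : Continuous (FL k N) := by
    unfold FL
    apply continuous_finsetSum
    intro n hn
    have hn0 : (n : ℝ) ≠ 0 := by
      have := (mem_Icc.1 hn).1
      exact_mod_cast (by omega : n ≠ 0)
    apply Continuous.mul continuous_const
    exact continuous_const.rpow continuous_neg (fun _ => Or.inl hn0)
  have hlim : Tendsto (FL k N) atTop (𝓝 1) := by
    have h1 := PC_tendsto (fun p => ((rv k p : ℝ) : ℂ)) N hN
    have h2 : (fun x : ℝ => PC (fun p => ((rv k p : ℝ) : ℂ)) N (x : ℂ)) =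
        fun x => ((FL k N x : ℝ) : ℂ) := by
      funext x
      rw [PC_ofReal, FS_lam]
    rw [h2] at h1
    have h3 := (Complex.continuous_re.tendsto _).comp h1
    rw [Complex.one_re] at h3
    exact h3
  by_contra hneg
  push Not at hneg
  obtain ⟨σ1, hσ1, hσ2⟩ := ((hlim.eventually (lt_mem_nhds (zero_lt_one))).and
    (eventually_gt_atTop 1)).exists
  have hivt := intermediate_value_Icc hσ2.le hcont.continuousOn
  obtain ⟨σ, hσ, hσ0⟩ := hivt ⟨hneg.le, hσ1.le⟩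
  have : 1 < σ := by
    rcases hσ.1.lt_or_eq with h4 | h4
    · exact h4
    · rw [← h4] at hσ0
      linarith
  exact h σ this hσ0

/-- **Theorem.** For every Dirichlet character infinitely many of the partial sums of its L-series
have zeros to the right of the line `Re s = 1`. -/
theorem main {k : ℕ} (hk : k ≠ 0) (χ : DirichletCharacter ℂ k) (X : ℕ) :
    ∃ N : ℕ, X ≤ N ∧ ∃ s : ℂ, 1 < s.re ∧ PS χ N s = 0 := by
  classical
  by_contra hcon
  push Not at hcon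
  have hPS : ∀ N, X + 1 ≤ N → ∀ v : ℕ → ℂ, (∀ p, p.Prime → p ∣ k → v p = 0) →
      (∀ p, p.Prime → ¬ p ∣ k → ‖v p‖ = 1) → ∀ σ : ℝ, 1 < σ → FS v N σ ≠ 0 := by
    intro N hN v hv0 hv1 σ hσ h0
    rw [← PC_ofReal] at h0
    obtain ⟨s, hs, hs0⟩ := exists_zero χ v hv0 hv1 N (by omega) σ hσ h0
    exact hcon N (by omega) s hs hs0
  have hnn : ∀ N, X + 1 ≤ N → 0 ≤ FL k N 1 := by
    intro N hN
    apply nonneg_of_nonvanishing k N (by omega)
    intro σ hσ h0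
    refine hPS N hN (fun p => ((rv k p : ℝ) : ℂ)) ?_ ?_ σ hσ ?_
    · intro p _ hpk; simp [rv, hpk]
    · intro p _ hpk; simp [rv, hpk]
    · rw [FS_lam, h0, Complex.ofReal_zero]
  -- the least prime not dividing `k`
  have hex : ∃ p, p.Prime ∧ ¬ p ∣ k := by
    obtain ⟨p, hp1, hp2⟩ := Nat.exists_infinite_primes (k + 1)
    refine ⟨p, hp2, fun h => ?_⟩
    have := Nat.le_of_dvd (Nat.pos_of_ne_zero hk) h
    omega
  set q := Nat.find hex with hqdef
  have hq := (Nat.find_spec hex).1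
  have hqk := (Nat.find_spec hex).2
  have hmin : ∀ p, p.Prime → p < q → p ∣ k := by
    intro p hp hpq
    by_contra h
    exact Nat.find_min hex hpq ⟨hp, h⟩
  obtain ⟨N, hN, v, hv0, hv1, σ, hσ, h0⟩ := exists_vanishing hk hq hqk hmin
    (fun ε hε Y => exists_small hk hq (X + 1) hnn ε hε Y) (X + 1)
  exact hPS N hN v hv0 hv1 σ hσ h0

end Pool.Agent.P8H19.TP
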